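import Mathlib

set_option autoImplicit false

namespace Pool.Agent.H827R3

/-- finitely additive and bounded real functions on a Boolean algebra -/
def Adm {L : Type} [BooleanAlgebra L] (μ : L → ℝ) : Prop :=
  (∀ a b : L, Disjoint a b → μ (a ⊔ b) = μ a + μ b) ∧ ∃ K : ℝ, ∀ a, |μ a| ≤ K

/-- pointwise bounded -/
def PB {L : Type} (μ : ℕ → L → ℝ) : Prop := ∀ a, ∃ K : ℝ, ∀ n, |μ n a| ≤ K

/-- uniformly bounded -/
def UB {L : Type} (μ : ℕ → L → ℝ) : Prop := ∃ K : ℝ, ∀ n a, |μ n a| ≤ K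

/-- the Nikodym property -/
def Nik (L : Type) [BooleanAlgebra L] : Prop :=
  ∀ μ : ℕ → L → ℝ, (∀ n, Adm (μ n)) → PB μ → UB μ

section basic
variable {L : Type} [BooleanAlgebra L] {μ : L → ℝ}

lemma Adm.bot (h : Adm μ) : μ ⊥ = 0 := by
  have := h.1 ⊥ ⊥ disjoint_bot_left
  simp at this
  exact this

lemma Adm.inf_add_sdiff (h : Adm μ) (a b : L) : μ a = μ (a ⊓ b) + μ (a \ b) := by
  have h1 := h.1 (a ⊓ b) (a \ b) disjoint_inf_sdiff
  rwa [sup_inf_sdiff] at h1

lemma Adm.finset_sup {ι : Type*} (h : Adm μ) (s : Finset ι) (x : ι → L)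
    (hx : ∀ i ∈ s, ∀ j ∈ s, i ≠ j → Disjoint (x i) (x j)) :
    μ (s.sup x) = ∑ i ∈ s, μ (x i) := by
  classical
  induction s using Finset.induction_on with
  | empty => simp [h.bot]
  | insert a s ha ih =>
    rw [Finset.sup_insert, Finset.sum_insert ha, h.1, ih]
    · intro i hi j hj hij
      exact hx i (Finset.mem_insert_of_mem hi) j (Finset.mem_insert_of_mem hj) hij
    · rw [Finset.disjoint_sup_right]
      intro i hi
      apply hx a (Finset.mem_insert_self _ _) i (Finset.mem_insert_of_mem hi)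
      rintro rfl
      exact ha hi

lemma Adm.sum_abs {ι : Type*} (h : Adm μ) {K : ℝ} (hK : ∀ a, |μ a| ≤ K) (s : Finset ι) (x : ι → L)
    (hx : ∀ i ∈ s, ∀ j ∈ s, i ≠ j → Disjoint (x i) (x j)) :
    ∑ i ∈ s, |μ (x i)| ≤ 2 * K := by
  classical
  rw [← Finset.sum_filter_add_sum_filter_not s (fun i => 0 ≤ μ (x i))]
  have h1 : ∑ i ∈ s with 0 ≤ μ (x i), |μ (x i)| ≤ K := by
    have : ∑ i ∈ s with 0 ≤ μ (x i), |μ (x i)| = μ ((s.filter (fun i => 0 ≤ μ (x i))).sup x) := by
      rw [h.finset_sup]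
      · apply Finset.sum_congr rfl
        intro i hi
        rw [Finset.mem_filter] at hi
        exact abs_of_nonneg hi.2
      · intro i hi j hj hij
        exact hx i (Finset.mem_filter.1 hi).1 j (Finset.mem_filter.1 hj).1 hij
    rw [this]
    exact (le_abs_self _).trans (hK _)
  have h2 : ∑ i ∈ s with ¬ 0 ≤ μ (x i), |μ (x i)| ≤ K := by
    have : ∑ i ∈ s with ¬ 0 ≤ μ (x i), |μ (x i)| =
        - μ ((s.filter (fun i => ¬ 0 ≤ μ (x i))).sup x) := by
      rw [h.finset_sup, ← Finset.sum_neg_distrib]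
      · apply Finset.sum_congr rfl
        intro i hi
        rw [Finset.mem_filter] at hi
        exact abs_of_nonpos (le_of_not_ge hi.2)
      · intro i hi j hj hij
        exact hx i (Finset.mem_filter.1 hi).1 j (Finset.mem_filter.1 hj).1 hij
    rw [this]
    exact (neg_le_abs _).trans (hK _)
  linarith

end basic

/-- shrinking lemma -/
lemma shrink {l : Set ℕ → ℝ} (h : Adm l) {I : Set ℕ} (hI : I.Infinite) :
    ∃ I' : Set ℕ, I' ⊆ I ∧ I'.Infinite ∧ ∀ J ⊆ I', |l J| ≤ 1 := by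
  classical
  by_contra hcon
  push Not at hcon
  obtain ⟨K, hK⟩ := h.2
  obtain ⟨r, hr⟩ := exists_nat_gt (2 * K)
  have hK0 : 0 ≤ K := (abs_nonneg _).trans (hK ∅)
  have hr0 : 0 < r := by
    have : (0 : ℝ) < r := by linarith
    exact_mod_cast this
  let φ := hI.natEmbedding I
  let P : ℕ → Set ℕ := fun m => {y | ∃ i : ℕ, i % r = m ∧ y = (φ i : ℕ)}
  have hPI : ∀ m, P m ⊆ I := by
    rintro m y ⟨i, -, rfl⟩
    exact (φ i).2
  have hPinf : ∀ m < r, (P m).Infinite := by
    intro m hm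
    have : Set.range (fun t : ℕ => ((φ (m + r * t) : I) : ℕ)) ⊆ P m := by
      rintro y ⟨t, rfl⟩
      exact ⟨m + r * t, by simp [Nat.add_mul_mod_self_left, Nat.mod_eq_of_lt hm], rfl⟩
    refine Set.Infinite.mono this (Set.infinite_range_of_injective ?_)
    intro t t' htt
    have h1 : φ (m + r * t) = φ (m + r * t') := Subtype.ext htt
    have h2 := φ.injective h1
    have h3 : r * t = r * t' := by omega
    exact Nat.eq_of_mul_eq_mul_left hr0 h3
  have hPd : ∀ m m', m ≠ m' → Disjoint (P m) (P m') := by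
    intro m m' hmm
    rw [Set.disjoint_left]
    rintro y ⟨i, hi, rfl⟩ ⟨j, hj, hij⟩
    have h1 : φ i = φ j := Subtype.ext hij
    have h2 := φ.injective h1
    subst h2
    exact hmm (hi.symm.trans hj)
  have hex : ∀ m : ℕ, ∃ J : Set ℕ, J ⊆ P m ∧ (m < r → 1 < |l J|) := by
    intro m
    by_cases hm : m < r
    · obtain ⟨J, hJ, hJ'⟩ := hcon (P m) (hPI m) (hPinf m hm)
      exact ⟨J, hJ, fun _ => hJ'⟩
    · exact ⟨∅, Set.empty_subset _, fun h => absurd h hm⟩
  choose J hJ hJ' using hex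
  have hsum := h.sum_abs hK (Finset.range r) J (by
    intro i _ j _ hij
    exact Set.disjoint_of_subset (hJ i) (hJ j) (hPd i j hij))
  have : (r : ℝ) ≤ ∑ i ∈ Finset.range r, |l (J i)| := by
    calc (r : ℝ) = ∑ i ∈ Finset.range r, (1 : ℝ) := by simp
    _ ≤ _ := by
      apply Finset.sum_le_sum
      intro i hi
      exact (hJ' i (Finset.mem_range.1 hi)).le
  linarith

/-- Nikodym boundedness on singletons of `Set ℕ` -/
lemma nb_singleton (l : ℕ → Set ℕ → ℝ) (h : ∀ j, Adm (l j)) (hp : PB l) :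
    ∃ K : ℝ, ∀ j i, |l j {i}| ≤ K := by
  classical
  by_contra hcon
  push Not at hcon
  choose pj px hpk using hcon
  choose C hC using fun i : ℕ => hp {i}
  have hC0 : ∀ i, 0 ≤ C i := fun i => (abs_nonneg _).trans (hC i 0)
  -- running sums
  let S : ℕ → ℝ := fun s => Nat.rec 0 (fun s acc => acc + C (px (s + 1 + acc))) s
  have hS : ∀ s, S (s + 1) = S s + C (px (s + 1 + S s)) := fun s => rfl
  let x : ℕ → ℕ := fun s => px (s + 1 + S s)
  let j : ℕ → ℕ := fun s => pj (s + 1 + S s)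
  have hS' : ∀ s, S s = ∑ t ∈ Finset.range s, C (x t) := by
    intro s
    induction s with
    | zero => simp [S]
    | succ s ih => rw [hS, Finset.sum_range_succ, ← ih]
  have hbig : ∀ s : ℕ, (s : ℝ) + 1 + ∑ t ∈ Finset.range s, C (x t) < |l (j s) {x s}| := by
    intro s
    rw [← hS']
    exact hpk _
  have hxinj : ∀ s t, s < t → x s ≠ x t := by
    intro s t hst he
    have h1 := hbig t
    rw [← he] at h1
    have h2 := hC (x s) (j t)
    have h3 : C (x s) ≤ ∑ t ∈ Finset.range t, C (x t) :=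
      Finset.single_le_sum (f := fun t => C (x t)) (fun i _ => hC0 _) (Finset.mem_range.2 hst)
    have h4 : (0 : ℝ) ≤ t := Nat.cast_nonneg _
    linarith
  have hxi : Function.Injective x := by
    intro s t hst
    by_contra hne
    rcases lt_or_gt_of_ne hne with h1 | h1
    · exact hxinj s t h1 hst
    · exact hxinj t s h1 hst.symm
  let l' : ℕ → Set ℕ → ℝ := fun s J => l (j s) (x '' J)
  have hl' : ∀ s, Adm (l' s) := by
    intro s
    refine ⟨?_, ?_⟩
    · intro a b hab
      have : Disjoint (x '' a) (x '' b) := (Set.disjoint_image_iff hxi).2 hab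
      have h1 := (h (j s)).1 _ _ this
      show l (j s) (x '' (a ∪ b)) = _
      rw [Set.image_union]
      exact h1
    · obtain ⟨K, hK⟩ := (h (j s)).2
      exact ⟨K, fun a => hK _⟩
  -- nested
  let St := {p : Set ℕ × ℕ // p.1.Infinite ∧ p.2 ∈ p.1}
  have step : ∀ p : St, ∃ q : St, q.1.1 ⊆ p.1.1 ∧ (∀ y ∈ q.1.1, p.1.2 < y) ∧
      ∀ J ⊆ q.1.1, |l' p.1.2 J| ≤ 1 := by
    rintro ⟨⟨I, s⟩, hI, hs⟩
    have hI2 : (I \ Set.Iic s).Infinite := hI.sdiff (Set.finite_Iic s)
    obtain ⟨I', h1, h2, h3⟩ := shrink (hl' s) hI2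
    obtain ⟨y, hy⟩ := h2.nonempty
    refine ⟨⟨⟨I', y⟩, h2, hy⟩, fun z hz => (h1 hz).1, fun z hz => ?_, h3⟩
    have := (h1 hz).2
    simpa using this
  choose nxt hn1 hn2 hn3 using step
  let p0 : St := ⟨⟨Set.univ, 0⟩, Set.infinite_univ, Set.mem_univ _⟩
  let q : ℕ → St := fun n => nxt^[n] p0
  have hq : ∀ n, q (n + 1) = nxt (q n) := fun n => Function.iterate_succ_apply' nxt n p0
  let s : ℕ → ℕ := fun n => (q n).1.2
  have hsub : ∀ n m, n ≤ m → (q m).1.1 ⊆ (q n).1.1 := by
    intro n m hnm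
    induction m, hnm using Nat.le_induction with
    | base => exact subset_rfl
    | succ m hm ih =>
      rw [hq]
      exact (hn1 _).trans ih
  have hlt : ∀ n m, n < m → s n < s m ∧ s m ∈ (q (n + 1)).1.1 := by
    intro n m hnm
    have h1 : s m ∈ (q (n + 1)).1.1 := hsub (n + 1) m hnm (q m).2.2
    refine ⟨?_, h1⟩
    rw [hq] at h1
    exact hn2 (q n) _ h1
  have hsm : StrictMono s := strictMono_nat_of_lt_succ (fun n => (hlt n (n + 1) (Nat.lt_succ_self n)).1)
  have hge : ∀ n, n ≤ s n := fun n => hsm.id_le n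
  obtain ⟨K, hK⟩ := hp (x '' (Set.range s))
  obtain ⟨r, hr⟩ := exists_nat_gt K
  have key : (s r : ℝ) ≤ |l' (s r) (Set.range s)| := by
    have hdec : Set.range s = (s '' (Set.Iio r)) ∪ ({s r} ∪ (s '' (Set.Ioi r))) := by
      ext y
      constructor
      · rintro ⟨t, rfl⟩
        rcases lt_trichotomy t r with h1 | h1 | h1
        · exact Or.inl ⟨t, h1, rfl⟩
        · exact Or.inr (Or.inl (by rw [h1]; rfl))
        · exact Or.inr (Or.inr ⟨t, h1, rfl⟩)
      · rintro (⟨t, -, rfl⟩ | h1 | ⟨t, -, rfl⟩)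
        · exact ⟨t, rfl⟩
        · exact ⟨r, h1.symm⟩
        · exact ⟨t, rfl⟩
    have hd1 : Disjoint ({s r} : Set ℕ) (s '' (Set.Ioi r)) := by
      rw [Set.disjoint_left]
      rintro y h1 ⟨t, ht, rfl⟩
      have : s r < s t := hsm ht
      simp at h1
      omega
    have hd2 : Disjoint (s '' (Set.Iio r)) ({s r} ∪ (s '' (Set.Ioi r))) := by
      rw [Set.disjoint_left]
      rintro y ⟨t, ht, rfl⟩ (h1 | ⟨t', ht', h1⟩)
      · have : s t < s r := hsm ht
        simp at h1
        omega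
      · have : s t < s r := hsm ht
        have : s r < s t' := hsm ht'
        omega
    have e1 := (hl' (s r)).1 _ _ hd2
    have e2 := (hl' (s r)).1 _ _ hd1
    have e3 : |l' (s r) (s '' (Set.Ioi r))| ≤ 1 := by
      apply hn3 (q r)
      rw [← hq]
      rintro y ⟨t, ht, rfl⟩
      exact (hlt r t ht).2
    have e4 : |l' (s r) (s '' (Set.Iio r))| ≤ ∑ t ∈ Finset.range (s r), C (x t) := by
      have h5 : s '' (Set.Iio r) = (Finset.range r).sup (fun t => ({s t} : Set ℕ)) := by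
        rw [Finset.sup_eq_iSup]
        ext y
        simp only [Set.mem_image, Set.mem_Iio, Finset.mem_range, Set.iSup_eq_iUnion,
          Set.mem_iUnion, Set.mem_singleton_iff, exists_prop]
        constructor
        · rintro ⟨t, ht, rfl⟩
          exact ⟨t, ht, rfl⟩
        · rintro ⟨t, ht, rfl⟩
          exact ⟨t, ht, rfl⟩
      rw [h5, (hl' (s r)).finset_sup]
      · calc |∑ t ∈ Finset.range r, l' (s r) {s t}| ≤ ∑ t ∈ Finset.range r, |l' (s r) {s t}| :=
            Finset.abs_sum_le_sum_abs _ _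
          _ ≤ ∑ t ∈ Finset.range r, C (x (s t)) := by
            apply Finset.sum_le_sum
            intro t _
            have := hC (x (s t)) (j (s r))
            simpa [l'] using this
          _ = ∑ t ∈ (Finset.range r).image s, C (x t) := by
            rw [Finset.sum_image]
            intro a _ b _ hab
            exact hsm.injective hab
          _ ≤ _ := by
            apply Finset.sum_le_sum_of_subset_of_nonneg
            · intro y hy
              rw [Finset.mem_image] at hy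
              obtain ⟨t, ht, rfl⟩ := hy
              rw [Finset.mem_range] at ht ⊢
              exact hsm ht
            · intro i _ _
              exact hC0 _
      · intro a _ b _ hab
        rw [Set.disjoint_singleton]
        exact fun h => hab (hsm.injective h)
    have e5 := hbig (s r)
    have e6 : l' (s r) {s r} = l (j (s r)) {x (s r)} := by simp [l']
    rw [hdec]
    change l' (s r) ((s '' (Set.Iio r)) ∪ ({s r} ∪ (s '' (Set.Ioi r)))) = _ at e1
    change l' (s r) ({s r} ∪ (s '' (Set.Ioi r))) = _ at e2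
    rw [e1]
    change (s r : ℝ) ≤ |l' (s r) (s '' (Set.Iio r)) + l' (s r) ({s r} ∪ (s '' (Set.Ioi r)))|
    rw [e2, e6]
    have t1 := abs_add_three (l' (s r) (s '' (Set.Iio r)) + (l (j (s r)) {x (s r)} +
      l' (s r) (s '' (Set.Ioi r)))) (- l' (s r) (s '' (Set.Iio r))) (- l' (s r) (s '' (Set.Ioi r)))
    rw [abs_neg, abs_neg] at t1
    have t2 : l' (s r) (s '' (Set.Iio r)) + (l (j (s r)) {x (s r)} +
      l' (s r) (s '' (Set.Ioi r))) + (- l' (s r) (s '' (Set.Iio r))) +
        (- l' (s r) (s '' (Set.Ioi r))) = l (j (s r)) {x (s r)} := by ring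
    rw [t2] at t1
    linarith
  have h6 := hK (j (s r))
  have h7 : (r : ℝ) ≤ s r := by exact_mod_cast hge r
  have h8 : l' (s r) (Set.range s) = l (j (s r)) (x '' Set.range s) := rfl
  rw [h8] at key
  linarith

/-- Disjointification -/
lemma disjointify {L : Type} [BooleanAlgebra L] (μ : ℕ → L → ℝ) (h : ∀ n, Adm (μ n)) (hp : PB μ)
    (hu : ¬ UB μ) :
    ∃ (e : ℕ → L) (j : ℕ → ℕ), (∀ i i', i ≠ i' → Disjoint (e i) (e i')) ∧
      ∀ i : ℕ, (i : ℝ) < |μ (j i) (e i)| := by
  classical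
  let big : L → Prop := fun a => ∀ K : ℝ, ∃ n b, b ≤ a ∧ K < |μ n b|
  have hbig : big ⊤ := by
    intro K
    by_contra hc
    push Not at hc
    exact hu ⟨K, fun n a => hc n a le_top⟩
  have hsplit : ∀ a b : L, b ≤ a → big a → ¬ big b → big (a \ b) := by
    intro a b hba ha hb K
    simp only [big] at hb
    push Not at hb
    obtain ⟨K', hK'⟩ := hb
    obtain ⟨n, c, hc, hK⟩ := ha (K + K')
    refine ⟨n, c \ b, sdiff_le_sdiff_right hc, ?_⟩
    have h1 := (h n).inf_add_sdiff c b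
    have h2 := hK' n (c ⊓ b) inf_le_right
    have h3 := abs_add_le (μ n (c ⊓ b)) (μ n (c \ b))
    rw [← h1] at h3
    linarith
  have claim : ∀ (a : L), big a → ∀ K : ℝ, ∃ e : L, e ≤ a ∧ big (a \ e) ∧ ∃ n, K < |μ n e| := by
    intro a ha K
    obtain ⟨C, hC⟩ := hp a
    have hC0 : 0 ≤ C := (abs_nonneg _).trans (hC 0)
    obtain ⟨n, b, hb, hK⟩ := ha (K + C)
    have h1 := (h n).inf_add_sdiff a b
    rw [inf_eq_right.2 hb] at h1
    have h2 : K < |μ n (a \ b)| := by
      have h3 := hC n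
      have h4 : μ n b = μ n a - μ n (a \ b) := by linarith
      have h5 := abs_sub (μ n a) (μ n (a \ b))
      rw [← h4] at h5
      linarith
    by_cases hab : big (a \ b)
    · exact ⟨b, hb, hab, n, by linarith⟩
    · refine ⟨a \ b, sdiff_le, ?_, n, h2⟩
      exact hsplit a (a \ b) sdiff_le ha hab
  let St := {a : L // big a}
  have step : ∀ (p : St) (K : ℝ), ∃ e : L, ∃ n, e ≤ p.1 ∧ big (p.1 \ e) ∧ K < |μ n e| := by
    rintro ⟨a, ha⟩ K
    obtain ⟨e, h1, h2, n, h3⟩ := claim a ha K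
    exact ⟨e, n, h1, h2, h3⟩
  choose ee nn s1 s2 s3 using step
  let q : ℕ → St := fun i => Nat.rec (⟨⊤, hbig⟩ : St) (fun i p => ⟨p.1 \ ee p i, s2 p i⟩) i
  have hq : ∀ i : ℕ, (q (i + 1)).1 = (q i).1 \ ee (q i) i := fun i => rfl
  have hmono : ∀ n m, n ≤ m → (q m).1 ≤ (q n).1 := by
    intro n m hnm
    induction m, hnm using Nat.le_induction with
    | base => exact le_rfl
    | succ m hm ih =>
      rw [hq]
      exact sdiff_le.trans ih
  have hdis : ∀ i i', i < i' → Disjoint (ee (q i) i) (ee (q i') i') := by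
    intro i i' hii
    have h1 : ee (q i') i' ≤ (q (i + 1)).1 := (s1 _ _).trans (hmono _ _ hii)
    rw [hq] at h1
    exact disjoint_sdiff_self_right.mono_right h1
  refine ⟨fun i => ee (q i) i, fun i => nn (q i) i, ?_, fun i => s3 _ _⟩
  intro i i' hne
  rcases lt_or_gt_of_ne hne with h1 | h1
  · exact hdis i i' h1
  · exact (hdis i' i h1).symm

/-- pull back along a `Set ℕ`-homomorphism -/
lemma nb_hom {L : Type} [BooleanAlgebra L] (μ : ℕ → L → ℝ) (h : ∀ n, Adm (μ n)) (hp : PB μ)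
    (Φ : Set ℕ → L) (hΦ : ∀ I J, Disjoint I J → Disjoint (Φ I) (Φ J))
    (hΦ' : ∀ I J, Disjoint I J → Φ (I ∪ J) = Φ I ⊔ Φ J) :
    ∃ K : ℝ, ∀ j i, |μ j (Φ {i})| ≤ K := by
  refine nb_singleton (fun j I => μ j (Φ I)) ?_ ?_
  · intro j
    refine ⟨?_, ?_⟩
    · intro a b hab
      have h1 := (h j).1 _ _ (hΦ a b hab)
      show μ j (Φ (a ∪ b)) = _
      rw [hΦ' a b hab]
      exact h1
    · obtain ⟨K, hK⟩ := (h j).2
      exact ⟨K, fun a => hK _⟩
  · intro I
    exact hp (Φ I)

lemma nik_set (X : Type) : Nik (Set X) := by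
  intro μ h hp
  by_contra hu
  obtain ⟨e, j, hd, hb⟩ := disjointify μ h hp hu
  obtain ⟨K, hK⟩ := nb_hom μ h hp (fun I => ⋃ i ∈ I, e i) (by
    intro I J hIJ
    rw [Set.disjoint_left]
    intro x hx hx'
    simp only [Set.mem_iUnion, exists_prop] at hx hx'
    obtain ⟨i, hi, hxi⟩ := hx
    obtain ⟨i', hi', hxi'⟩ := hx'
    have hne : i ≠ i' := by
      rintro rfl
      exact Set.disjoint_left.1 hIJ hi hi'
    exact Set.disjoint_left.1 (hd i i' hne) hxi hxi') (by
    intro I J _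
    exact Set.biUnion_union _ _ _)
  obtain ⟨r, hr⟩ := exists_nat_gt K
  have h1 := hK (j r) r
  have h2 := hb r
  simp at h1
  linarith

/-- Nikodym property transfers along surjective homomorphisms; used for sets below an element -/
lemma ub_of_hom {X L : Type} [BooleanAlgebra L] (μ : ℕ → L → ℝ) (h : ∀ n, Adm (μ n)) (hp : PB μ)
    (Φ : Set X → L) (hΦ : ∀ I J, Disjoint I J → Disjoint (Φ I) (Φ J))
    (hΦ' : ∀ I J, Disjoint I J → Φ (I ∪ J) = Φ I ⊔ Φ J) :
    ∃ K : ℝ, ∀ j I, |μ j (Φ I)| ≤ K := by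
  refine nik_set X (fun j I => μ j (Φ I)) ?_ ?_
  · intro j
    refine ⟨?_, ?_⟩
    · intro a b hab
      have h1 := (h j).1 _ _ (hΦ a b hab)
      show μ j (Φ (a ∪ b)) = _
      rw [hΦ' a b hab]
      exact h1
    · obtain ⟨K, hK⟩ := (h j).2
      exact ⟨K, fun a => hK _⟩
  · intro I
    exact hp (Φ I)

end Pool.Agent.H827R3
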