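import Pool.Agent.H827R3.NikA

set_option autoImplicit false

open Filter Topology

namespace Pool.Agent.H827R3

abbrev Pt (k : ℕ) := Bool × Fin k
abbrev Row := ∀ k : ℕ, Finset (Pt k)

/-- number of pairs on which `s` is asymmetric -/
noncomputable def asy {k : ℕ} (s : Finset (Pt k)) : ℕ := by
  classical
  exact (Finset.univ.filter (fun g : Fin k => ¬ ((false, g) ∈ s ↔ (true, g) ∈ s))).card

/-- number of symmetric pairs contained in `s` -/
noncomputable def par {k : ℕ} (s : Finset (Pt k)) : ℕ := by
  classical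
  exact (Finset.univ.filter (fun g : Fin k => ((false, g) ∈ s ∧ (true, g) ∈ s))).card

/-- the signed count -/
def dif {k : ℕ} (s : Finset (Pt k)) : ℤ := ∑ x ∈ s, (if x.1 = true then (1 : ℤ) else -1)

lemma dif_union {k : ℕ} {s t : Finset (Pt k)} (h : Disjoint s t) : dif (s ∪ t) = dif s + dif t :=
  Finset.sum_union h

lemma dif_empty {k : ℕ} : dif (∅ : Finset (Pt k)) = 0 := rfl

lemma asy_empty {k : ℕ} : asy (∅ : Finset (Pt k)) = 0 := by
  simp [asy]

lemma asy_compl {k : ℕ} (s : Finset (Pt k)) : asy sᶜ = asy s := by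
  simp only [asy, Finset.mem_compl]
  congr 1
  ext g
  simp only [Finset.mem_filter, Finset.mem_univ, true_and]
  tauto

lemma asy_union {k : ℕ} (s t : Finset (Pt k)) : asy (s ∪ t) ≤ asy s + asy t := by
  classical
  refine (Finset.card_le_card ?_).trans (Finset.card_union_le _ _)
  intro g hg
  simp only [Finset.mem_filter, Finset.mem_univ, true_and, Finset.mem_union] at hg ⊢
  tauto

lemma asy_inter {k : ℕ} (s t : Finset (Pt k)) : asy (s ∩ t) ≤ asy s + asy t := by
  classical
  refine (Finset.card_le_card ?_).trans (Finset.card_union_le _ _)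
  intro g hg
  simp only [Finset.mem_filter, Finset.mem_univ, true_and, Finset.mem_union,
    Finset.mem_inter] at hg ⊢
  tauto

lemma asy_le_card {k : ℕ} (s : Finset (Pt k)) : asy s ≤ s.card := by
  classical
  have : ((Finset.univ.filter (fun g : Fin k => ¬ ((false, g) ∈ s ↔ (true, g) ∈ s)))) ⊆
      s.image Prod.snd := by
    intro g hg
    simp only [Finset.mem_filter, Finset.mem_univ, true_and] at hg
    rw [Finset.mem_image]
    by_cases h : (false, g) ∈ s
    · exact ⟨(false, g), h, rfl⟩
    · refine ⟨(true, g), ?_, rfl⟩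
      tauto
  exact (Finset.card_le_card this).trans Finset.card_image_le

lemma dif_eq_sum {k : ℕ} (s : Finset (Pt k)) :
    dif s = ∑ g : Fin k, ((if (true, g) ∈ s then (1 : ℤ) else 0) - (if (false, g) ∈ s then 1 else 0)) := by
  have h1 : dif s = ∑ x : Pt k, (if x ∈ s then (if x.1 = true then (1 : ℤ) else -1) else 0) := by
    unfold dif
    rw [Finset.sum_ite_mem, Finset.univ_inter]
  rw [h1, Fintype.sum_prod_type_right]
  apply Finset.sum_congr rfl
  intro g _
  rw [Fintype.sum_bool]
  by_cases h2 : (true, g) ∈ s <;> by_cases h3 : (false, g) ∈ s <;> simp [h2, h3]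

lemma abs_dif_le {k : ℕ} (s : Finset (Pt k)) : |dif s| ≤ asy s := by
  classical
  rw [dif_eq_sum]
  refine (Finset.abs_sum_le_sum_abs _ _).trans ?_
  unfold asy
  rw [Finset.card_filter]
  push_cast
  apply Finset.sum_le_sum
  intro g _
  by_cases h2 : (true, g) ∈ s <;> by_cases h3 : (false, g) ∈ s <;> simp [h2, h3]

lemma par_mono {k : ℕ} {s t : Finset (Pt k)} (h : s ⊆ t) : par s ≤ par t := by
  classical
  unfold par
  apply Finset.card_le_card
  intro g hg
  simp only [Finset.mem_filter, Finset.mem_univ, true_and] at hg ⊢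
  exact ⟨h hg.1, h hg.2⟩

/-- asymmetry is negligible -/
def Bal (u : Row) : Prop := Tendsto (fun k : ℕ => (asy (u k) : ℝ) / k) atTop (𝓝 0)

/-- size is negligible -/
def Thin (u : Row) : Prop := Tendsto (fun k : ℕ => ((u k).card : ℝ) / k) atTop (𝓝 0)

lemma bal_of_le {u : Row} {t : ℕ → ℝ} (ht : Tendsto t atTop (𝓝 0))
    (h : ∀ k : ℕ, (asy (u k) : ℝ) / k ≤ t k) : Bal u :=
  squeeze_zero (fun k => by positivity) h ht

lemma thin_of_le {u : Row} {t : ℕ → ℝ} (ht : Tendsto t atTop (𝓝 0))
    (h : ∀ k : ℕ, ((u k).card : ℝ) / k ≤ t k) : Thin u :=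
  squeeze_zero (fun k => by positivity) h ht

lemma Thin.mono {u v : Row} (hv : Thin v) (h : ∀ k, u k ⊆ v k) : Thin u := by
  apply thin_of_le hv
  intro k
  have := Finset.card_le_card (h k)
  gcongr

lemma Thin.bal {u : Row} (hu : Thin u) : Bal u := by
  apply bal_of_le hu
  intro k
  have := asy_le_card (u k)
  gcongr

/-- the row algebra -/
def PP : BooleanSubalgebra Row where
  carrier := {u | Bal u}
  supClosed' := by
    intro u hu v hv
    have h := Tendsto.add hu hv
    rw [add_zero] at h
    apply bal_of_le h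
    intro k
    rw [← add_div]
    have h2 : asy ((u ⊔ v) k) ≤ asy (u k) + asy (v k) := asy_union _ _
    have h3 : (asy ((u ⊔ v) k) : ℝ) ≤ asy (u k) + asy (v k) := by exact_mod_cast h2
    gcongr
  infClosed' := by
    intro u hu v hv
    have h := Tendsto.add hu hv
    rw [add_zero] at h
    apply bal_of_le h
    intro k
    rw [← add_div]
    have h2 : asy ((u ⊓ v) k) ≤ asy (u k) + asy (v k) := asy_inter _ _
    have h3 : (asy ((u ⊓ v) k) : ℝ) ≤ asy (u k) + asy (v k) := by exact_mod_cast h2
    gcongr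
  compl_mem' := by
    intro u hu
    apply bal_of_le hu
    intro k
    have h2 : asy ((uᶜ) k) = asy (u k) := asy_compl _
    rw [h2]
  bot_mem' := by
    have : Tendsto (fun _ : ℕ => (0 : ℝ)) atTop (𝓝 0) := tendsto_const_nhds
    apply bal_of_le this
    intro k
    have h2 : asy ((⊥ : Row) k) = 0 := asy_empty
    rw [h2]
    simp

lemma mem_PP {u : Row} : u ∈ PP ↔ Bal u := Iff.rfl

lemma disj_sub {L : Type} [BooleanAlgebra L] (S : BooleanSubalgebra L) (a b : S) :
    Disjoint a b ↔ Disjoint (a : L) (b : L) := by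
  rw [disjoint_iff, disjoint_iff, Subtype.ext_iff]
  rfl

lemma disj_row (u v : Row) : Disjoint u v ↔ ∀ k, ∀ x ∈ u k, x ∉ v k := by
  rw [Pi.disjoint_iff]
  constructor
  · intro h k x hx hx'
    exact Finset.disjoint_left.1 (h k) hx hx'
  · intro h k
    exact Finset.disjoint_left.2 (fun x hx => h k x hx)

lemma card_mod_le {k p i : ℕ} (hp : 0 < p) (s : Finset (Pt k)) (hs : ∀ x ∈ s, x.2.val % p = i) :
    s.card ≤ 2 * (k / p + 1) := by
  classical
  have h1 : s.card ≤ ((Finset.univ : Finset Bool) ×ˢ Finset.range (k / p + 1)).card := by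
    apply Finset.card_le_card_of_injOn (fun x => (x.1, x.2.val / p))
    · intro x hx
      simp only [Finset.coe_product, Finset.coe_univ, Finset.coe_range, Set.mem_prod,
        Set.mem_univ, Set.mem_Iio, true_and]
      have : x.2.val / p ≤ k / p := Nat.div_le_div_right x.2.2.le
      omega
    · intro x hx y hy hxy
      simp only [Prod.mk.injEq] at hxy
      have e1 := hs x hx
      have e2 := hs y hy
      have e3 : x.2.val = y.2.val := by
        rw [← Nat.div_add_mod x.2.val p, ← Nat.div_add_mod y.2.val p, hxy.2, e1, e2]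
      exact Prod.ext hxy.1 (Fin.ext e3)
  simpa using h1

end Pool.Agent.H827R3
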