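import Pool.Agent.H827R3.NikB

set_option autoImplicit false

open Filter Topology

namespace Pool.Agent.H827R3

/-- the part of `z` with positions in `I` -/
noncomputable def cut (z : Row) (I : Set (Σ k, Pt k)) : Row := by
  classical
  exact fun k => (z k).filter (fun x => (⟨k, x⟩ : Σ k, Pt k) ∈ I)

lemma mem_cut {z : Row} {I : Set (Σ k, Pt k)} {k : ℕ} {x : Pt k} :
    x ∈ cut z I k ↔ x ∈ z k ∧ (⟨k, x⟩ : Σ k, Pt k) ∈ I := by
  simp [cut]

lemma cut_le (z : Row) (I : Set (Σ k, Pt k)) (k : ℕ) : cut z I k ⊆ z k := by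
  intro x hx
  exact (mem_cut.1 hx).1

lemma row_ext {u v : Row} (h : ∀ k x, x ∈ u k ↔ x ∈ v k) : u = v := by
  funext k
  ext x
  exact h k x

lemma thin_bound (μ : ℕ → PP → ℝ) (h : ∀ n, Adm (μ n)) (hp : PB μ) (z : Row) (hz : Thin z) :
    ∃ K : ℝ, ∀ j (y : Row) (hy : Bal y), (∀ k, y k ⊆ z k) → |μ j ⟨y, hy⟩| ≤ K := by
  classical
  obtain ⟨K, hK⟩ := ub_of_hom μ h hp
    (fun I : Set (Σ k, Pt k) => (⟨cut z I, (hz.mono (cut_le z I)).bal⟩ : PP)) (by
    intro I J hIJ
    rw [disj_sub, disj_row]
    intro k x hx hx'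
    exact Set.disjoint_left.1 hIJ (mem_cut.1 hx).2 (mem_cut.1 hx').2) (by
    intro I J _
    apply Subtype.ext
    apply row_ext
    intro k x
    simp only [BooleanSubalgebra.val_sup, Pi.sup_apply, Finset.sup_eq_union, Finset.mem_union,
      mem_cut, Set.mem_union]
    tauto)
  refine ⟨K, fun j y hy hyz => ?_⟩
  have h1 := hK j {p | p.2 ∈ y p.1}
  have h2 : cut z {p | p.2 ∈ y p.1} = y := by
    apply row_ext
    intro k x
    rw [mem_cut]
    constructor
    · rintro ⟨-, h3⟩
      exact h3
    · intro h3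
      exact ⟨hyz k h3, h3⟩
  have h3 : (⟨cut z {p | p.2 ∈ y p.1}, (hz.mono (cut_le z _)).bal⟩ : PP) = ⟨y, hy⟩ :=
    Subtype.ext h2
  rw [← h3]
  exact h1

/-- symmetric sets -/
noncomputable def symm (I : Set (Σ k, Fin k)) : Row := by
  classical
  exact fun k => Finset.univ.filter (fun x => (⟨k, x.2⟩ : Σ k, Fin k) ∈ I)

lemma mem_symm {I : Set (Σ k, Fin k)} {k : ℕ} {x : Pt k} :
    x ∈ symm I k ↔ (⟨k, x.2⟩ : Σ k, Fin k) ∈ I := by
  simp [symm]

lemma symm_bal (I : Set (Σ k, Fin k)) : Bal (symm I) := by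
  have : Tendsto (fun _ : ℕ => (0 : ℝ)) atTop (𝓝 0) := tendsto_const_nhds
  apply bal_of_le this
  intro k
  have h2 : asy (symm I k) = 0 := by
    simp [asy, mem_symm]
  rw [h2]
  simp

lemma symm_bound (μ : ℕ → PP → ℝ) (h : ∀ n, Adm (μ n)) (hp : PB μ) :
    ∃ K : ℝ, ∀ j I, |μ j ⟨symm I, symm_bal I⟩| ≤ K := by
  classical
  exact ub_of_hom μ h hp
    (fun I : Set (Σ k, Fin k) => (⟨symm I, symm_bal I⟩ : PP)) (by
    intro I J hIJ
    rw [disj_sub, disj_row]
    intro k x hx hx'
    exact Set.disjoint_left.1 hIJ (mem_symm.1 hx) (mem_symm.1 hx')) (by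
    intro I J _
    apply Subtype.ext
    apply row_ext
    intro k x
    simp only [BooleanSubalgebra.val_sup, Pi.sup_apply, Finset.sup_eq_union, Finset.mem_union,
      mem_symm, Set.mem_union])

lemma finite_thin (z : Row) (N : ℕ) (hz : ∀ k, N ≤ k → z k = ∅) : Thin z := by
  unfold Thin
  apply tendsto_const_nhds.congr'
  filter_upwards [eventually_ge_atTop N] with k hk
  simp [hz k hk]

/-- union of a sequence of thin sets with geometrically decreasing densities -/
lemma thin_union (f : ℕ → Row) (hf : ∀ s, Thin (f s))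
    (hf2 : ∀ s k, ((f s k).card : ℝ) / k ≤ 4 * (1 / 2) ^ s) (hf3 : ∀ s k, k ≤ s → f s k = ∅)
    (F : Row) (hF : ∀ k, ∀ x ∈ F k, ∃ s, x ∈ f s k) : Thin F := by
  classical
  have hsum : Summable (fun s : ℕ => (4 : ℝ) * (1 / 2) ^ s) :=
    (summable_geometric_of_lt_one (by norm_num) (by norm_num)).mul_left 4
  have ht := tendsto_tsum_of_dominated_convergence (𝓕 := atTop)
    (f := fun (k : ℕ) (s : ℕ) => ((f s k).card : ℝ) / k) (g := fun _ => (0 : ℝ)) hsum
    (fun s => hf s) (Eventually.of_forall (fun k s => by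
      rw [Real.norm_of_nonneg (by positivity)]
      exact hf2 s k))
  rw [tsum_zero] at ht
  apply thin_of_le ht
  intro k
  have h1 : F k ⊆ (Finset.range k).biUnion (fun s => f s k) := by
    intro x hx
    obtain ⟨s, hs⟩ := hF k x hx
    rw [Finset.mem_biUnion]
    refine ⟨s, ?_, hs⟩
    rw [Finset.mem_range]
    by_contra hlt
    rw [hf3 s k (by omega)] at hs
    simp at hs
  have h2 : (F k).card ≤ ∑ s ∈ Finset.range k, (f s k).card :=
    (Finset.card_le_card h1).trans Finset.card_biUnion_le
  have h3 : ((F k).card : ℝ) / k ≤ ∑ s ∈ Finset.range k, ((f s k).card : ℝ) / k := by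
    rw [← Finset.sum_div]
    have : ((F k).card : ℝ) ≤ ∑ s ∈ Finset.range k, ((f s k).card : ℝ) := by exact_mod_cast h2
    gcongr
  refine h3.trans ?_
  apply Summable.sum_le_tsum _ (fun s _ => by positivity)
  apply Summable.of_nonneg_of_le (fun s => by positivity) (fun s => hf2 s k) hsum

lemma thin_ub (μ : ℕ → PP → ℝ) (h : ∀ n, Adm (μ n)) (hp : PB μ) :
    ∃ K : ℝ, ∀ j (y : Row) (hy : Thin y), |μ j ⟨y, hy.bal⟩| ≤ K := by
  classical
  by_contra hcon
  push Not at hcon
  let head : ℕ → Row := fun s k => if k < 2 ^ s then Finset.univ else ∅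
  have hhead : ∀ s, Thin (head s) := by
    intro s
    apply finite_thin _ (2 ^ s)
    intro k hk
    simp only [head]
    rw [if_neg (by omega)]
  choose H hH using fun s => thin_bound μ h hp (head s) (hhead s)
  have key : ∀ s : ℕ, ∃ (j : ℕ) (f : Row) (hf : Thin f), (s : ℝ) < |μ j ⟨f, hf.bal⟩| ∧
      (∀ k, ((f k).card : ℝ) / k ≤ 4 * (1 / 2) ^ s) ∧ (∀ k, k ≤ s → f k = ∅) := by
    intro s
    obtain ⟨j, z, hz, hjz⟩ := hcon (H s + 2 ^ s * s)
    let zm : Row := fun k => if k < 2 ^ s then z k else ∅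
    let zp : Row := fun k => if k < 2 ^ s then ∅ else z k
    have hzm : Thin zm := hz.mono (by
      intro k
      simp only [zm]
      split_ifs
      · exact subset_rfl
      · exact Finset.empty_subset _)
    have hzp : Thin zp := hz.mono (by
      intro k
      simp only [zp]
      split_ifs
      · exact Finset.empty_subset _
      · exact subset_rfl)
    have e1 : μ j ⟨z, hz.bal⟩ = μ j ⟨zm, hzm.bal⟩ + μ j ⟨zp, hzp.bal⟩ := by
      rw [← (h j).1]
      · congr 1
        apply Subtype.ext
        apply row_ext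
        intro k x
        simp only [BooleanSubalgebra.val_sup, Pi.sup_apply, Finset.sup_eq_union,
          Finset.mem_union, zm, zp]
        split_ifs <;> simp
      · rw [disj_sub, disj_row]
        intro k x hx hx'
        simp only [zm, zp] at hx hx'
        split_ifs at hx hx' <;> simp at hx hx'
    have e2 : |μ j ⟨zm, hzm.bal⟩| ≤ H s := by
      apply hH
      intro k
      simp only [zm, head]
      split_ifs
      · exact Finset.subset_univ _
      · exact subset_rfl
    have e3 : (2 : ℝ) ^ s * s < |μ j ⟨zp, hzp.bal⟩| := by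
      have := abs_add_le (μ j ⟨zm, hzm.bal⟩) (μ j ⟨zp, hzp.bal⟩)
      rw [← e1] at this
      linarith
    -- the pieces
    let y : ℕ → Row := fun i k => (zp k).filter (fun x => x.2.val % 2 ^ s = i)
    have hy : ∀ i, Thin (y i) := fun i => hzp.mono (fun k => Finset.filter_subset _ _)
    have e4 : μ j ⟨zp, hzp.bal⟩ = ∑ i ∈ Finset.range (2 ^ s), μ j ⟨y i, (hy i).bal⟩ := by
      rw [← (h j).finset_sup (Finset.range (2 ^ s)) (fun i => (⟨y i, (hy i).bal⟩ : PP))]
      · congr 1
        apply Subtype.ext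
        have hval : ∀ (t : Finset ℕ) (g : ℕ → PP), ((t.sup g : PP) : Row) = t.sup (fun i => (g i : Row)) := by
          intro t g
          induction t using Finset.induction_on with
          | empty => rfl
          | insert a t ha ih => rw [Finset.sup_insert, Finset.sup_insert, ← ih]; rfl
        rw [hval]
        apply row_ext
        intro k x
        rw [Finset.sup_apply, Finset.mem_sup]
        simp only [y, Finset.mem_filter, Finset.mem_range]
        constructor
        · intro hx
          exact ⟨x.2.val % 2 ^ s, Nat.mod_lt _ (by positivity), hx, rfl⟩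
        · rintro ⟨i, -, hx, -⟩
          exact hx
      · intro i _ i' _ hii
        rw [disj_sub, disj_row]
        intro k x hx hx'
        simp only [y, Finset.mem_filter] at hx hx'
        exact hii (hx.2.symm.trans hx'.2)
    obtain ⟨i, hi, hi2⟩ : ∃ i ∈ Finset.range (2 ^ s), (s : ℝ) < |μ j ⟨y i, (hy i).bal⟩| := by
      by_contra hc
      push Not at hc
      have h5 : |μ j ⟨zp, hzp.bal⟩| ≤ ∑ i ∈ Finset.range (2 ^ s), (s : ℝ) := by
        rw [e4]
        exact (Finset.abs_sum_le_sum_abs _ _).trans (Finset.sum_le_sum hc)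
      simp at h5
      linarith
    refine ⟨j, y i, hy i, hi2, ?_, ?_⟩
    · intro k
      by_cases hk : k < 2 ^ s
      · have : y i k = ∅ := by
          simp [y, zp, hk]
        rw [this]
        simp
      · push Not at hk
        have h6 : (y i k).card ≤ 2 * (k / 2 ^ s + 1) := by
          apply card_mod_le (p := 2 ^ s) (i := i) (by positivity)
          intro x hx
          simp only [y, Finset.mem_filter] at hx
          exact hx.2
        have h7 : ((y i k).card : ℝ) ≤ 2 * ((k : ℝ) / 2 ^ s + 1) := by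
          have h8 : ((k / 2 ^ s : ℕ) : ℝ) ≤ (k : ℝ) / 2 ^ s := by
            have := @Nat.cast_div_le ℝ _ _ _ k (2 ^ s)
            push_cast at this
            exact this
          have h9 : ((y i k).card : ℝ) ≤ 2 * (((k / 2 ^ s : ℕ) : ℝ) + 1) := by exact_mod_cast h6
          linarith
        have hk' : (2 : ℝ) ^ s ≤ k := by exact_mod_cast hk
        have hp2 : (0 : ℝ) < 2 ^ s := by positivity
        have hk0 : (0 : ℝ) < k := lt_of_lt_of_le hp2 hk'
        rw [div_le_iff₀ hk0]
        have h10 : (1 : ℝ) ≤ (k : ℝ) / 2 ^ s := by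
          rw [le_div_iff₀ hp2]
          linarith
        have h11 : (4 : ℝ) * (1 / 2) ^ s * k = 4 * ((k : ℝ) / 2 ^ s) := by
          rw [one_div, inv_pow]
          field_simp
        rw [h11]
        linarith
    · intro k hk
      have : k < 2 ^ s := lt_of_le_of_lt hk Nat.lt_two_pow_self
      simp [y, zp, this]
  choose j f hf hbig hden hemp using key
  let F : Row := fun k => Finset.univ.filter (fun x => ∃ s, x ∈ f s k)
  have hF : Thin F := thin_union f hf hden hemp F (by
    intro k x hx
    simpa [F] using hx)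
  obtain ⟨K, hK⟩ := thin_bound μ h hp F hF
  obtain ⟨s, hs⟩ := exists_nat_gt K
  have h1 := hK (j s) (f s) (hf s).bal (by
    intro k x hx
    simp only [F, Finset.mem_filter, Finset.mem_univ, true_and]
    exact ⟨s, hx⟩)
  have h2 := hbig s
  linarith

theorem nik_PP : Nik PP := by
  classical
  intro μ h hp
  obtain ⟨K1, h1⟩ := symm_bound μ h hp
  obtain ⟨K2, h2⟩ := thin_ub μ h hp
  refine ⟨K1 + K2, ?_⟩
  rintro j ⟨b, hb⟩
  let I : Set (Σ k, Fin k) := {p | (false, p.2) ∈ b p.1 ∨ (true, p.2) ∈ b p.1}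
  let r : Row := fun k => symm I k \ b k
  have hr : Thin r := by
    apply thin_of_le hb
    intro k
    have : (r k).card ≤ asy (b k) := by
      have h3 : (r k).card = ((r k).image Prod.snd).card := by
        rw [Finset.card_image_of_injOn]
        rintro ⟨e, g⟩ hx ⟨e', g'⟩ hy hxy
        simp only [r, Finset.coe_sdiff, Set.mem_sdiff, SetLike.mem_coe, mem_symm, I, Set.mem_ofPred_eq] at hx hy hxy
        subst hxy
        cases e <;> cases e' <;> simp_all
      rw [h3]
      unfold asy
      apply Finset.card_le_card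
      intro g hg
      rw [Finset.mem_image] at hg
      obtain ⟨⟨e, g'⟩, hx, rfl⟩ := hg
      simp only [r, Finset.mem_sdiff, mem_symm, I, Set.mem_ofPred_eq] at hx
      simp only [Finset.mem_filter, Finset.mem_univ, true_and]
      cases e <;> tauto
    have h4 : ((r k).card : ℝ) ≤ asy (b k) := by exact_mod_cast this
    gcongr
  have e1 : μ j ⟨symm I, symm_bal I⟩ = μ j ⟨b, hb⟩ + μ j ⟨r, hr.bal⟩ := by
    rw [← (h j).1]
    · congr 1
      apply Subtype.ext
      apply row_ext
      intro k x
      simp only [BooleanSubalgebra.val_sup, Pi.sup_apply, Finset.sup_eq_union, Finset.mem_union,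
        r, Finset.mem_sdiff]
      constructor
      · intro hx
        by_cases hxb : x ∈ b k
        · exact Or.inl hxb
        · exact Or.inr ⟨hx, hxb⟩
      · rintro (hx | ⟨hx, -⟩)
        · rw [mem_symm]
          obtain ⟨e, g⟩ := x
          cases e
          · exact Or.inl hx
          · exact Or.inr hx
        · exact hx
    · rw [disj_sub, disj_row]
      intro k x hx hx'
      simp only [r, Finset.mem_sdiff] at hx'
      exact hx'.2 hx
  have e2 := h1 j I
  have e3 := h2 j r hr
  have e4 : μ j ⟨b, hb⟩ = μ j ⟨symm I, symm_bal I⟩ - μ j ⟨r, hr.bal⟩ := by linarith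
  rw [e4]
  exact (abs_sub _ _).trans (add_le_add e2 e3)

end Pool.Agent.H827R3
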