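import Pool.Agent.H827R3.NikC

set_option autoImplicit false

open Filter Topology

namespace Pool.Agent.H827R3

lemma exists_disjoint_subsets {α : Type*} [DecidableEq α] (N s : ℕ) (P : Finset α)
    (h : N * s ≤ P.card) :
    ∃ W : ℕ → Finset α, (∀ l < N, W l ⊆ P ∧ (W l).card = s) ∧
      ∀ l < N, ∀ l' < N, l ≠ l' → Disjoint (W l) (W l') := by
  induction N generalizing P with
  | zero => exact ⟨fun _ => ∅, fun l hl => absurd hl (Nat.not_lt_zero _),
      fun l hl => absurd hl (Nat.not_lt_zero _)⟩
  | succ N ih =>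
    have h1 : s ≤ P.card := by
      have : (N + 1) * s = N * s + s := by ring
      omega
    obtain ⟨V, hV, hVc⟩ := Finset.exists_subset_card_eq h1
    have h2 : N * s ≤ (P \ V).card := by
      rw [Finset.card_sdiff_of_subset hV, hVc]
      have : (N + 1) * s = N * s + s := by ring
      omega
    obtain ⟨W, hW, hWd⟩ := ih (P \ V) h2
    refine ⟨fun l => if l = N then V else W l, ?_, ?_⟩
    · intro l hl
      by_cases h3 : l = N
      · simp only [h3, if_true]
        exact ⟨hV, hVc⟩
      · simp only [h3, if_false]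
        have := hW l (by omega)
        exact ⟨this.1.trans Finset.sdiff_subset, this.2⟩
    · intro l hl l' hl' hne
      have hVW : ∀ i < N, Disjoint V (W i) := by
        intro i hi
        exact Finset.disjoint_of_subset_right (hW i hi).1 Finset.disjoint_sdiff
      by_cases h3 : l = N
      · by_cases h4 : l' = N
        · omega
        · simp only [h3, h4, if_true, if_false]
          exact hVW l' (by omega)
      · by_cases h4 : l' = N
        · simp only [h3, h4, if_true, if_false]
          exact (hVW l (by omega)).symm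
        · simp only [h3, h4, if_false]
          exact hWd l (by omega) l' (by omega) hne

lemma dif_sdiff {k : ℕ} {s t : Finset (Pt k)} (h : t ⊆ s) : dif (s \ t) = dif s - dif t := by
  have h1 : dif ((s \ t) ∪ t) = dif (s \ t) + dif t := dif_union Finset.sdiff_disjoint
  rw [Finset.sdiff_union_of_subset h] at h1
  linarith

lemma dif_prod {k : ℕ} (Q : Finset (Fin k)) : dif ((Finset.univ : Finset Bool) ×ˢ Q) = 0 := by
  unfold dif
  rw [Finset.sum_product_right]
  apply Finset.sum_eq_zero
  intro g _
  rw [Fintype.sum_bool]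
  simp

lemma dif_single {k : ℕ} (e : Bool) (T : Finset (Fin k)) :
    dif (({e} : Finset Bool) ×ˢ T) = (if e = true then (T.card : ℤ) else - T.card) := by
  unfold dif
  rw [Finset.sum_product_right]
  cases e <;> simp

/-- block selection -/
lemma block_sel {k : ℕ} (Z : Finset (Pt k)) (q : ℕ) (h : 9 * (q + (dif Z).natAbs) ≤ par Z) :
    ∃ R : ℕ → Finset (Pt k), (∀ l < 8, R l ⊆ Z ∧ dif (R l) = dif Z ∧ q ≤ par (R l) ∧
      q ≤ par (Z \ R l) ∧ asy (R l) ≤ (dif Z).natAbs) ∧
      ∀ l < 8, ∀ l' < 8, l ≠ l' → Disjoint (R l) (R l') := by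
  classical
  let P : Finset (Fin k) := Finset.univ.filter (fun g : Fin k => ((false, g) ∈ Z ∧ (true, g) ∈ Z))
  have hP : P.card = par Z := by
    unfold par
    congr
  obtain ⟨W, hW, hWd⟩ := exists_disjoint_subsets 8 (q + (dif Z).natAbs) P (by rw [hP]; omega)
  have hQ : ∀ l, ∃ Q : Finset (Fin k), l < 8 → Q ⊆ W l ∧ Q.card = q := by
    intro l
    by_cases hl : l < 8
    · obtain ⟨Q, h1, h2⟩ := Finset.exists_subset_card_eq (s := W l) (n := q)
        (by rw [(hW l hl).2]; omega)
      exact ⟨Q, fun _ => ⟨h1, h2⟩⟩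
    · exact ⟨∅, fun h => absurd h hl⟩
  choose Q hQ using hQ
  let e : Bool := decide (0 ≤ dif Z)
  let R : ℕ → Finset (Pt k) := fun l =>
    ((Finset.univ : Finset Bool) ×ˢ Q l) ∪ (({e} : Finset Bool) ×ˢ (W l \ Q l))
  have hRW : ∀ l < 8, ∀ x ∈ R l, x.2 ∈ W l := by
    intro l hl x hx
    simp only [R, Finset.mem_union, Finset.mem_product, Finset.mem_sdiff] at hx
    rcases hx with hx | hx
    · exact (hQ l hl).1 hx.2
    · exact hx.2.1
  have hWP : ∀ l < 8, ∀ g ∈ W l, (false, g) ∈ Z ∧ (true, g) ∈ Z := by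
    intro l hl g hg
    have := (hW l hl).1 hg
    simpa [P] using this
  have hRZ : ∀ l < 8, R l ⊆ Z := by
    intro l hl x hx
    have h1 := hWP l hl _ (hRW l hl x hx)
    obtain ⟨e', g⟩ := x
    cases e'
    · exact h1.1
    · exact h1.2
  refine ⟨R, ?_, ?_⟩
  · intro l hl
    have hTc : (W l \ Q l).card = (dif Z).natAbs := by
      rw [Finset.card_sdiff_of_subset (hQ l hl).1, (hW l hl).2, (hQ l hl).2]
      omega
    refine ⟨hRZ l hl, ?_, ?_, ?_, ?_⟩
    · have hd : Disjoint ((Finset.univ : Finset Bool) ×ˢ Q l)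
          (({e} : Finset Bool) ×ˢ (W l \ Q l)) := by
        rw [Finset.disjoint_left]
        intro x hx hx'
        simp only [Finset.mem_product, Finset.mem_sdiff] at hx hx'
        exact hx'.2.2 hx.2
      show dif (_ ∪ _) = _
      rw [dif_union hd, dif_prod, dif_single, hTc]
      by_cases h0 : 0 ≤ dif Z
      · simp only [e, h0, decide_true, if_true]
        omega
      · have h00 : decide (0 ≤ dif Z) = false := by simpa using h0
        simp only [e, h00, Bool.false_eq_true, if_false]
        omega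
    · rw [← (hQ l hl).2]
      unfold par
      apply Finset.card_le_card
      intro g hg
      simp [R, hg]
    · have h1 : (P \ W l).card = par Z - (q + (dif Z).natAbs) := by
        rw [Finset.card_sdiff_of_subset (hW l hl).1, hP, (hW l hl).2]
      have h2 : (P \ W l).card ≤ par (Z \ R l) := by
        unfold par
        apply Finset.card_le_card
        intro g hg
        simp only [Finset.mem_sdiff, P, Finset.mem_filter, Finset.mem_univ, true_and] at hg ⊢
        refine ⟨⟨hg.1.1, fun h => hg.2 (hRW l hl _ h)⟩, ⟨hg.1.2, fun h => hg.2 (hRW l hl _ h)⟩⟩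
      omega
    · rw [← hTc]
      unfold asy
      apply Finset.card_le_card
      intro g hg
      simp only [Finset.mem_filter, Finset.mem_univ, true_and] at hg
      by_contra hc
      apply hg
      simp only [R, Finset.mem_union, Finset.mem_product, Finset.mem_univ, true_and]
      tauto
  · intro l hl l' hl' hne
    rw [Finset.disjoint_left]
    intro x hx hx'
    exact Finset.disjoint_left.1 (hWd l hl l' hl' hne) (hRW l hl x hx) (hRW l' hl' x hx')

/-- exclusive or of finite sets -/
def xo {k : ℕ} (s t : Finset (Pt k)) : Finset (Pt k) := (s \ t) ∪ (t \ s)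

lemma mem_xo {k : ℕ} {s t : Finset (Pt k)} {x : Pt k} :
    x ∈ xo s t ↔ (x ∈ s ∧ x ∉ t) ∨ (x ∈ t ∧ x ∉ s) := by
  simp [xo]

lemma par_split {k : ℕ} (b d : Finset (Pt k)) : par d ≤ par (b ∩ d) + par (d \ b) + asy b := by
  classical
  unfold par asy
  refine (Finset.card_le_card ?_).trans ((Finset.card_union_le _ _).trans
    (Nat.add_le_add_right (Finset.card_union_le _ _) _))
  intro g hg
  simp only [Finset.mem_filter, Finset.mem_univ, true_and, Finset.mem_union, Finset.mem_inter,
    Finset.mem_sdiff] at hg ⊢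
  tauto

lemma class_sel {k : ℕ} (b d : Finset (Pt k)) (q t : ℕ) (hd : dif d = 0)
    (ht : asy b + asy d ≤ t) (hp : 18 * q + 19 * t ≤ par d) :
    ∃ R : ℕ → Finset (Pt k), (∀ l < 8, R l ⊆ d ∧ asy (R l) ≤ t ∧
      dif (xo b (R l) ∩ d) = 0 ∧ q ≤ par (xo b (R l) ∩ d) ∧ q ≤ par (d \ xo b (R l))) ∧
      ∀ l < 8, ∀ l' < 8, l ≠ l' → Disjoint (R l) (R l') := by
  classical
  have hsum : dif (b ∩ d) + dif (d \ b) = 0 := by
    rw [← dif_union, ← hd]
    · congr 1
      ext x
      simp only [Finset.mem_union, Finset.mem_inter, Finset.mem_sdiff]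
      tauto
    · rw [Finset.disjoint_left]
      intro x hx hx'
      simp only [Finset.mem_inter, Finset.mem_sdiff] at hx hx'
      exact hx'.2 hx.1
  have hX : (dif (b ∩ d)).natAbs ≤ t := by
    have h1 := abs_dif_le (b ∩ d)
    rw [← Int.natCast_natAbs] at h1
    have h2 := asy_inter b d
    omega
  have hY : (dif (d \ b)).natAbs ≤ t := by
    omega
  have hps := par_split b d
  by_cases hcase : par (d \ b) ≤ par (b ∩ d)
  · obtain ⟨R, hR, hRd⟩ := block_sel (b ∩ d) q (by omega)
    refine ⟨R, fun l hl => ?_, hRd⟩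
    obtain ⟨h1, h2, h3, h4, h5⟩ := hR l hl
    have hRd' : R l ⊆ d := h1.trans Finset.inter_subset_right
    have hRb : R l ⊆ b := h1.trans Finset.inter_subset_left
    have e1 : xo b (R l) ∩ d = (b ∩ d) \ R l := by
      ext x
      have := @hRb x
      simp only [Finset.mem_inter, mem_xo, Finset.mem_sdiff]
      tauto
    have e2 : R l ⊆ d \ xo b (R l) := by
      intro x hx
      have a1 := hRb hx
      have a2 := hRd' hx
      simp only [mem_xo, Finset.mem_sdiff]
      tauto
    refine ⟨hRd', by omega, ?_, ?_, ?_⟩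
    · rw [e1, dif_sdiff h1, h2]
      ring
    · rw [e1]
      exact h4
    · exact h3.trans (par_mono e2)
  · push Not at hcase
    obtain ⟨R, hR, hRd⟩ := block_sel (d \ b) q (by omega)
    refine ⟨R, fun l hl => ?_, hRd⟩
    obtain ⟨h1, h2, h3, h4, h5⟩ := hR l hl
    have hRd' : R l ⊆ d := h1.trans Finset.sdiff_subset
    have hRb : ∀ x ∈ R l, x ∉ b := fun x hx => (Finset.mem_sdiff.1 (h1 hx)).2
    have e1 : xo b (R l) ∩ d = (b ∩ d) ∪ R l := by
      ext x
      have a1 := hRb x
      have a2 := @hRd' x
      simp only [Finset.mem_inter, mem_xo, Finset.mem_union]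
      tauto
    have e2 : d \ xo b (R l) = (d \ b) \ R l := by
      ext x
      have a1 := hRb x
      have a2 := @hRd' x
      simp only [mem_xo, Finset.mem_sdiff]
      tauto
    have e3 : Disjoint (b ∩ d) (R l) := by
      rw [Finset.disjoint_left]
      intro x hx hx'
      exact hRb x hx' (Finset.mem_inter.1 hx).1
    refine ⟨hRd', by omega, ?_, ?_, ?_⟩
    · rw [e1, dif_union e3, h2]
      exact hsum
    · rw [e1]
      exact h3.trans (par_mono Finset.subset_union_right)
    · rw [e2]
      exact h4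

end Pool.Agent.H827R3
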