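import Pool.Agent.H827R3.NikD

set_option autoImplicit false

open Filter Topology

namespace Pool.Agent.H827R3

abbrev Col := ∀ k : ℕ, Pt k → ℕ

def cls (f : Col) (k c : ℕ) : Finset (Pt k) := Finset.univ.filter (fun x => f k x = c)

def asyf (f : Col) (k : ℕ) : ℕ :=
  (Finset.univ.filter (fun g : Fin k => f k (false, g) ≠ f k (true, g))).card

/-- good colorings -/
def Good (f : Col) : Prop :=
  (∃ m : ℕ, ∀ᶠ k in atTop, (∀ x, f k x < m) ∧
    ∀ c, (cls f k c).Nonempty → dif (cls f k c) = 0 ∧ k ≤ m * par (cls f k c)) ∧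
  Tendsto (fun k : ℕ => (asyf f k : ℝ) / k) atTop (𝓝 0)

def refi (f : Col) (u : Row) : Col := fun k x => 2 * f k x + (if x ∈ u k then 1 else 0)

lemma mem_cls {f : Col} {k c : ℕ} {x : Pt k} : x ∈ cls f k c ↔ f k x = c := by
  simp [cls]

lemma asy_cls (f : Col) (k c : ℕ) : asy (cls f k c) ≤ asyf f k := by
  classical
  unfold asy asyf
  apply Finset.card_le_card
  intro g hg
  simp only [Finset.mem_filter, Finset.mem_univ, true_and, mem_cls] at hg ⊢
  intro h
  rw [h] at hg
  exact hg Iff.rfl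

lemma asy_biUnion {k : ℕ} (s : Finset ℕ) (R : ℕ → Finset (Pt k)) (t : ℕ)
    (h : ∀ a ∈ s, asy (R a) ≤ t) : asy (s.biUnion R) ≤ s.card * t := by
  classical
  induction s using Finset.induction_on with
  | empty => simp [asy_empty]
  | insert a s ha ih =>
    rw [Finset.biUnion_insert, Finset.card_insert_of_notMem ha]
    refine (asy_union _ _).trans ?_
    have h1 := h a (Finset.mem_insert_self _ _)
    have h2 := ih (fun a' ha' => h a' (Finset.mem_insert_of_mem ha'))
    have h3 : (s.card + 1) * t = s.card * t + t := by ring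
    omega

/-- total block lemma -/
lemma block_total (f : Col) (k m : ℕ) (b : Finset (Pt k)) (q t : ℕ) (hm : ∀ x, f k x < m)
    (ht : asy b + asyf f k ≤ t)
    (hf : ∀ c, (cls f k c).Nonempty → dif (cls f k c) = 0 ∧ 18 * q + 19 * t ≤ par (cls f k c)) :
    ∃ r : ℕ → Finset (Pt k), (∀ l < 8, asy (r l) ≤ m * t ∧
      ∀ c, dif (xo b (r l) ∩ cls f k c) = 0 ∧ dif (cls f k c \ xo b (r l)) = 0 ∧
        ((cls f k c).Nonempty → q ≤ par (xo b (r l) ∩ cls f k c) ∧
          q ≤ par (cls f k c \ xo b (r l)))) ∧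
      ∀ l < 8, ∀ l' < 8, l ≠ l' → Disjoint (r l) (r l') := by
  classical
  have hex : ∀ c, ∃ R : ℕ → Finset (Pt k), (cls f k c).Nonempty →
      (∀ l < 8, R l ⊆ cls f k c ∧ asy (R l) ≤ t ∧
      dif (xo b (R l) ∩ cls f k c) = 0 ∧ q ≤ par (xo b (R l) ∩ cls f k c) ∧
        q ≤ par (cls f k c \ xo b (R l))) ∧
      ∀ l < 8, ∀ l' < 8, l ≠ l' → Disjoint (R l) (R l') := by
    intro c
    by_cases hc : (cls f k c).Nonempty
    · obtain ⟨R, hR⟩ := class_sel b (cls f k c) q t (hf c hc).1
        ((Nat.add_le_add_left (asy_cls f k c) _).trans ht) (hf c hc).2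
      exact ⟨R, fun _ => hR⟩
    · exact ⟨fun _ => ∅, fun h => absurd h hc⟩
  choose R hR using hex
  let R' : ℕ → ℕ → Finset (Pt k) := fun c l => if (cls f k c).Nonempty then R c l else ∅
  have hR'sub : ∀ c, ∀ l < 8, R' c l ⊆ cls f k c := by
    intro c l hl
    simp only [R']
    split_ifs with h
    · exact ((hR c h).1 l hl).1
    · exact Finset.empty_subset _
  let r : ℕ → Finset (Pt k) := fun l => (Finset.range m).biUnion (fun c => R' c l)
  have hrc : ∀ l < 8, ∀ c, ∀ x ∈ cls f k c, (x ∈ r l ↔ x ∈ R' c l) := by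
    intro l hl c x hx
    simp only [r, Finset.mem_biUnion, Finset.mem_range]
    constructor
    · rintro ⟨c', -, hc'⟩
      have h1 := mem_cls.1 (hR'sub c' l hl hc')
      have h2 := mem_cls.1 hx
      have h3 : c' = c := h1.symm.trans h2
      rw [← h3]
      exact hc'
    · intro h
      refine ⟨c, ?_, h⟩
      rw [← mem_cls.1 hx]
      exact hm x
  refine ⟨r, ?_, ?_⟩
  · intro l hl
    refine ⟨?_, ?_⟩
    · have := asy_biUnion (Finset.range m) (fun c => R' c l) t (by
        intro c _
        simp only [R']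
        split_ifs with h
        · exact ((hR c h).1 l hl).2.1
        · simp [asy_empty])
      simpa using this
    · intro c
      by_cases hc : (cls f k c).Nonempty
      · have hRR : R' c l = R c l := by simp [R', hc]
        obtain ⟨h1, h2, h3, h4, h5⟩ := (hR c hc).1 l hl
        have e1 : xo b (r l) ∩ cls f k c = xo b (R c l) ∩ cls f k c := by
          ext x
          simp only [Finset.mem_inter, mem_xo]
          constructor
          · rintro ⟨h6, h7⟩
            rw [hrc l hl c x h7, hRR] at h6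
            exact ⟨h6, h7⟩
          · rintro ⟨h6, h7⟩
            rw [hrc l hl c x h7, hRR]
            exact ⟨h6, h7⟩
        have e2 : cls f k c \ xo b (r l) = cls f k c \ xo b (R c l) := by
          ext x
          simp only [Finset.mem_sdiff, mem_xo]
          constructor
          · rintro ⟨h7, h6⟩
            rw [hrc l hl c x h7, hRR] at h6
            exact ⟨h7, h6⟩
          · rintro ⟨h7, h6⟩
            rw [hrc l hl c x h7, hRR]
            exact ⟨h7, h6⟩
        rw [e1, e2]
        refine ⟨h3, ?_, fun _ => ⟨h4, h5⟩⟩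
        have e3 : cls f k c \ xo b (R c l) = cls f k c \ (xo b (R c l) ∩ cls f k c) := by
          ext x
          simp only [Finset.mem_sdiff, Finset.mem_inter]
          tauto
        rw [e3, dif_sdiff Finset.inter_subset_right, h3, (hf c hc).1]
        ring
      · rw [Finset.not_nonempty_iff_eq_empty] at hc
        rw [hc]
        simp [dif_empty]
  · intro l hl l' hl' hne
    rw [Finset.disjoint_left]
    intro x hx hx'
    have hxc : x ∈ cls f k (f k x) := mem_cls.2 rfl
    rw [hrc l hl _ x hxc] at hx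
    rw [hrc l' hl' _ x hxc] at hx'
    have hc : (cls f k (f k x)).Nonempty := ⟨x, hxc⟩
    simp only [R', hc, if_true] at hx hx'
    exact Finset.disjoint_left.1 ((hR _ hc).2 l hl l' hl' hne) hx hx'

lemma cls_refi_one (f : Col) (u : Row) (k a : ℕ) :
    cls (refi f u) k (2 * a + 1) = u k ∩ cls f k a := by
  ext x
  simp only [mem_cls, refi, Finset.mem_inter]
  split_ifs with h
  · simp [h]
  · simp [h]
    omega

lemma cls_refi_zero (f : Col) (u : Row) (k a : ℕ) :
    cls (refi f u) k (2 * a) = cls f k a \ u k := by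
  ext x
  simp only [mem_cls, refi, Finset.mem_sdiff]
  split_ifs with h
  · simp [h]
    omega
  · simp [h]

lemma asyf_refi (f : Col) (u : Row) (k : ℕ) : asyf (refi f u) k ≤ asyf f k + asy (u k) := by
  classical
  unfold asyf asy
  refine (Finset.card_le_card ?_).trans (Finset.card_union_le _ _)
  intro g hg
  have hg := (Finset.mem_filter.1 hg).2
  simp only [refi] at hg
  simp only [Finset.mem_filter, Finset.mem_univ, true_and, Finset.mem_union]
  by_contra hc
  push Not at hc
  apply hg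
  rw [hc.1]
  by_cases h1 : (false, g) ∈ u k
  · have h2 := hc.2.1 h1
    simp [h1, h2]
  · have h2 : (true, g) ∉ u k := fun h => h1 (hc.2.2 h)
    simp [h1, h2]

lemma good_refi (f : Col) (hf : Good f) (u : Row) (hu : Bal u) (m' : ℕ)
    (h : ∀ᶠ k in atTop, ∀ c, dif (u k ∩ cls f k c) = 0 ∧ dif (cls f k c \ u k) = 0 ∧
        ((cls f k c).Nonempty → k ≤ m' * par (u k ∩ cls f k c) ∧
          k ≤ m' * par (cls f k c \ u k))) : Good (refi f u) := by
  obtain ⟨⟨m, hm⟩, ht⟩ := hf
  refine ⟨⟨2 * m + m', ?_⟩, ?_⟩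
  · filter_upwards [hm, h] with k hk hk'
    refine ⟨?_, ?_⟩
    · intro x
      have := hk.1 x
      simp only [refi]
      split_ifs <;> omega
    · intro c hc
      have key : ∀ p : ℕ, k ≤ m' * p → k ≤ (2 * m + m') * p := by
        intro p hp
        refine hp.trans ?_
        exact Nat.mul_le_mul_right _ (by omega)
      rcases Nat.even_or_odd' c with ⟨a, ha | ha⟩
      · subst ha
        rw [cls_refi_zero] at hc ⊢
        have hne : (cls f k a).Nonempty := hc.mono Finset.sdiff_subset
        exact ⟨(hk' a).2.1, key _ ((hk' a).2.2 hne).2⟩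
      · subst ha
        rw [cls_refi_one] at hc ⊢
        have hne : (cls f k a).Nonempty := hc.mono Finset.inter_subset_right
        exact ⟨(hk' a).1, key _ ((hk' a).2.2 hne).1⟩
  · have h1 := ht.add hu
    rw [add_zero] at h1
    refine squeeze_zero (fun k => by positivity) ?_ h1
    intro k
    have h2 : (asyf (refi f u) k : ℝ) ≤ asyf f k + asy (u k) := by exact_mod_cast asyf_refi f u k
    rw [← add_div]
    gcongr

lemma eventually_small {t : ℕ → ℕ} (ht : Tendsto (fun k : ℕ => (t k : ℝ) / k) atTop (𝓝 0)) (M : ℕ) :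
    ∀ᶠ k in atTop, M * t k ≤ k := by
  have h1 : ∀ᶠ k : ℕ in atTop, (t k : ℝ) / k < 1 / (M + 1) :=
    ht.eventually_lt_const (by positivity)
  filter_upwards [h1, eventually_gt_atTop 0] with k hk hk0
  have hk0' : (0 : ℝ) < k := by exact_mod_cast hk0
  rw [div_lt_div_iff₀ hk0' (by positivity)] at hk
  have h2 : ((M * t k : ℕ) : ℝ) ≤ k := by
    push_cast
    have : (0 : ℝ) ≤ t k := Nat.cast_nonneg _
    nlinarith
  exact_mod_cast h2

/-- candidates -/
lemma candidates (f : Col) (hf : Good f) (b : Row) (hb : Bal b) :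
    ∃ r : ℕ → Row, (∀ l < 8, Bal (r l) ∧ Good (refi f (fun k => xo (b k) (r l k)))) ∧
      ∀ l < 8, ∀ l' < 8, l ≠ l' → ∀ k, Disjoint (r l k) (r l' k) := by
  classical
  obtain ⟨⟨m0, hm0⟩, ht⟩ := hf
  let m := m0 + 1
  let t : ℕ → ℕ := fun k => asy (b k) + asyf f k
  have htt : Tendsto (fun k : ℕ => (t k : ℝ) / k) atTop (𝓝 0) := by
    have h1 := Tendsto.add hb ht
    rw [add_zero] at h1
    refine h1.congr ?_
    intro k
    simp only [t]
    push_cast
    rw [add_div]
  let Cond : ℕ → Prop := fun k => (∀ x, f k x < m) ∧ ∀ c, (cls f k c).Nonempty →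
    dif (cls f k c) = 0 ∧ 18 * (k / (40 * m)) + 19 * t k ≤ par (cls f k c)
  have hCond : ∀ᶠ k in atTop, Cond k := by
    filter_upwards [hm0, eventually_small htt (38 * m)] with k hk hk2
    refine ⟨fun x => (hk.1 x).trans (Nat.lt_succ_self _), fun c hc => ⟨(hk.2 c hc).1, ?_⟩⟩
    have h1 := (hk.2 c hc).2
    have h2 : k ≤ m * par (cls f k c) := h1.trans (Nat.mul_le_mul_right _ (Nat.le_succ _))
    have h3 : (40 * m) * (k / (40 * m)) ≤ k := Nat.mul_div_le _ _
    have hmpos : 0 < m := Nat.succ_pos _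
    apply le_of_mul_le_mul_left _ hmpos
    refine le_trans ?_ h2
    have h4 : m * (18 * (k / (40 * m)) + 19 * t k) * 40 = 18 * ((40 * m) * (k / (40 * m))) +
        20 * (38 * m * t k) := by ring
    have h5 : m * (18 * (k / (40 * m)) + 19 * t k) * 40 ≤ k * 40 := by
      rw [h4]
      omega
    omega
  have hex : ∀ k, ∃ r : ℕ → Finset (Pt k), (∀ l < 8, asy (r l) ≤ m * t k) ∧
      (Cond k → ∀ l < 8, ∀ c, dif (xo (b k) (r l) ∩ cls f k c) = 0 ∧
        dif (cls f k c \ xo (b k) (r l)) = 0 ∧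
        ((cls f k c).Nonempty → k / (40 * m) ≤ par (xo (b k) (r l) ∩ cls f k c) ∧
          k / (40 * m) ≤ par (cls f k c \ xo (b k) (r l)))) ∧
      ∀ l < 8, ∀ l' < 8, l ≠ l' → Disjoint (r l) (r l') := by
    intro k
    by_cases hk : Cond k
    · obtain ⟨r, h1, h2⟩ := block_total f k m (b k) (k / (40 * m)) (t k) hk.1 le_rfl hk.2
      exact ⟨r, fun l hl => (h1 l hl).1, fun _ l hl => (h1 l hl).2, h2⟩
    · exact ⟨fun _ => ∅, fun l _ => by simp [asy_empty], fun h => absurd h hk,
        fun _ _ _ _ _ => Finset.disjoint_empty_left _⟩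
  choose r hr1 hr2 hr3 using hex
  have hbal : ∀ l < 8, Bal (fun k => r k l) := by
    intro l hl
    have h1 := htt.const_mul (m : ℝ)
    rw [mul_zero] at h1
    apply bal_of_le h1
    intro k
    have h2 : (asy (r k l) : ℝ) ≤ m * t k := by exact_mod_cast hr1 k l hl
    rw [← mul_div_assoc]
    gcongr
  refine ⟨fun l k => r k l, ?_, fun l hl l' hl' hne k => hr3 k l hl l' hl' hne⟩
  intro l hl
  refine ⟨hbal l hl, ?_⟩
  have hxb : Bal (fun k => xo (b k) (r k l)) := by
    have h1 := Tendsto.add hb (hbal l hl)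
    rw [add_zero] at h1
    apply bal_of_le h1
    intro k
    have h2 : asy (xo (b k) (r k l)) ≤ asy (b k) + asy (r k l) := by
      unfold asy
      refine (Finset.card_le_card ?_).trans (Finset.card_union_le _ _)
      intro g hg
      simp only [Finset.mem_filter, Finset.mem_univ, true_and, Finset.mem_union, mem_xo] at hg ⊢
      tauto
    have h3 : (asy (xo (b k) (r k l)) : ℝ) ≤ asy (b k) + asy (r k l) := by exact_mod_cast h2
    rw [← add_div]
    gcongr
  apply good_refi f ⟨⟨m0, hm0⟩, ht⟩ _ hxb (80 * m)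
  filter_upwards [hCond, eventually_ge_atTop (40 * m)] with k hk hk2
  intro c
  obtain ⟨h1, h2, h3⟩ := hr2 k hk l hl c
  refine ⟨h1, h2, fun hc => ?_⟩
  obtain ⟨h4, h5⟩ := h3 hc
  have hmpos : 0 < m := Nat.succ_pos _
  have h6 : k ≤ 80 * m * (k / (40 * m)) := by
    have h7 : 1 ≤ k / (40 * m) := (Nat.one_le_div_iff (by positivity)).2 hk2
    have h8 : k < (40 * m) * (k / (40 * m) + 1) := Nat.lt_mul_div_succ k (by positivity)
    have h9 : (40 * m) * (k / (40 * m) + 1) ≤ (40 * m) * (2 * (k / (40 * m))) :=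
      Nat.mul_le_mul_left _ (by omega)
    have h10 : (40 * m) * (2 * (k / (40 * m))) = 80 * m * (k / (40 * m)) := by ring
    omega
  exact ⟨h6.trans (Nat.mul_le_mul_left _ h4), h6.trans (Nat.mul_le_mul_left _ h5)⟩

/-- the row lemma -/
theorem row_lemma (f : Col) (hf : Good f) (l : PP → ℝ) (h : Adm l) (b : PP)
    (hb : ∀ u, |l u| ≤ 2 * |l b|) :
    ∃ c : PP, Good (refi f c) ∧ |l b| ≤ 2 * |l c| := by
  classical
  obtain ⟨r, hr, hd⟩ := candidates f hf b.1 b.2
  let R : ℕ → PP := fun i => if hi : i < 8 then ⟨r i, (hr i hi).1⟩ else ⊥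
  have hR : ∀ i (hi : i < 8), (R i : Row) = r i := by
    intro i hi
    simp [R, hi]
  have hRd : ∀ i < 8, ∀ i' < 8, i ≠ i' → Disjoint (R i) (R i') := by
    intro i hi i' hi' hne
    rw [disj_sub, hR i hi, hR i' hi', disj_row]
    intro k x hx hx'
    exact Finset.disjoint_left.1 (hd i hi i' hi' hne k) hx hx'
  let X : ℕ × Bool → PP := fun p => if p.2 = true then b ⊓ R p.1 else R p.1 \ b
  have hX := h.sum_abs hb (Finset.range 8 ×ˢ (Finset.univ : Finset Bool)) X (by
    rintro ⟨i, e⟩ hi ⟨i', e'⟩ hi' hne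
    simp only [Finset.mem_product, Finset.mem_range, Finset.mem_univ, and_true] at hi hi'
    by_cases hii : i = i'
    · subst hii
      have hee : e ≠ e' := fun h => hne (by rw [h])
      cases e <;> cases e'
      · exact absurd rfl hee
      · simp only [X, Bool.false_eq_true, if_false, if_true]
        exact disjoint_sdiff_self_left.mono_right inf_le_left
      · simp only [X, Bool.false_eq_true, if_false, if_true]
        exact (disjoint_sdiff_self_left.mono_right inf_le_left).symm
      · exact absurd rfl hee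
    · have hXR : ∀ (j : ℕ) (e : Bool), X (j, e) ≤ R j := by
        intro j e
        simp only [X]
        split_ifs
        · exact inf_le_right
        · exact sdiff_le
      exact (hRd i hi i' hi' hii).mono (hXR i e) (hXR i' e'))
  rw [Finset.sum_product] at hX
  obtain ⟨i, hi, hi2⟩ : ∃ i ∈ Finset.range 8, |l (b ⊓ R i)| + |l (R i \ b)| ≤ |l b| / 2 := by
    by_contra hc
    push Not at hc
    have h1 : ∑ i ∈ Finset.range 8, |l b| / 2 <
        ∑ i ∈ Finset.range 8, (|l (b ⊓ R i)| + |l (R i \ b)|) :=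
      Finset.sum_lt_sum_of_nonempty ⟨0, by simp⟩ hc
    have h2 : ∀ i ∈ Finset.range 8, ∑ e : Bool, |l (X (i, e))| =
        |l (b ⊓ R i)| + |l (R i \ b)| := by
      intro i _
      rw [Fintype.sum_bool]
      simp [X]
    rw [Finset.sum_congr rfl h2] at hX
    simp at h1
    linarith
  rw [Finset.mem_range] at hi
  refine ⟨(b \ R i) ⊔ (R i \ b), ?_, ?_⟩
  · have h1 := (hr i hi).2
    have h2 : (((b \ R i) ⊔ (R i \ b) : PP) : Row) = fun k => xo (b.1 k) (r i k) := by
      rw [BooleanSubalgebra.val_sup, BooleanSubalgebra.val_sdiff, BooleanSubalgebra.val_sdiff,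
        hR i hi]
      rfl
    rw [h2]
    exact h1
  · have h1 : l ((b \ R i) ⊔ (R i \ b)) = l (b \ R i) + l (R i \ b) :=
      h.1 _ _ (disjoint_sdiff_self_left.mono_right sdiff_le)
    have h2 := h.inf_add_sdiff b (R i)
    have h3 : l b = l ((b \ R i) ⊔ (R i \ b)) + (l (b ⊓ R i) - l (R i \ b)) := by
      rw [h1, h2]
      ring
    have h4 : |l b| ≤ |l ((b \ R i) ⊔ (R i \ b))| + (|l (b ⊓ R i)| + |l (R i \ b)|) := by
      calc |l b| = |l ((b \ R i) ⊔ (R i \ b)) + (l (b ⊓ R i) - l (R i \ b))| := by rw [← h3]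
      _ ≤ _ := (abs_add_le _ _).trans (add_le_add_right (abs_sub _ _) _)
    linarith

end Pool.Agent.H827R3
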