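import Pool.Agent.H827R3.NikE

set_option autoImplicit false

open Filter Topology

namespace Pool.Agent.H827R3

/-- the diamond principle in the form of the statement -/
def Dia (A : Ordinal.{0} → Set Ordinal.{0}) : Prop :=
  (∀ α, A α ⊆ Set.Iio α) ∧
    ∀ X : Set Ordinal.{0}, X ⊆ Set.Iio (Cardinal.aleph 1).ord →
      ∀ C : Set Ordinal.{0}, C ⊆ Set.Iio (Cardinal.aleph 1).ord →
        (∀ β < (Cardinal.aleph 1).ord, ∃ γ ∈ C, β ≤ γ) →
        (∀ γ < (Cardinal.aleph 1).ord, 0 < γ →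
          (∀ β < γ, ∃ δ ∈ C, β < δ ∧ δ < γ) → γ ∈ C) →
        ∃ α ∈ C, X ∩ Set.Iio α = A α

lemma countable_Iio' {α : Ordinal.{0}} (h : α < (Cardinal.aleph 1).ord) : Countable (Set.Iio α) := by
  rw [← Cardinal.mk_le_aleph0_iff]
  rw [Cardinal.mk_Iio_ordinal]
  have h1 := Cardinal.lt_ord.1 h
  have h2 : α.card ≤ Cardinal.aleph0 := by
    rw [← Cardinal.succ_aleph0] at h1
    exact Order.lt_succ_iff.1 h1
  exact Cardinal.lift_le_aleph0.2 h2

lemma bddω {ι : Type*} [Countable ι] (f : ι → Ordinal.{0})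
    (h : ∀ i, f i < (Cardinal.aleph 1).ord) : ∃ b < (Cardinal.aleph 1).ord, ∀ i, f i ≤ b := by
  rw [Cardinal.ord_aleph] at h ⊢
  exact ⟨⨆ i, f i, Ordinal.iSup_lt_omega_one h, fun i => Ordinal.le_iSup f i⟩

def Ref (f' f : Col) : Prop := ∀ k x y, f' k x = f' k y → f k x = f k y

lemma Ref.refl (f : Col) : Ref f f := fun _ _ _ h => h

lemma Ref.trans {f g h : Col} (h1 : Ref f g) (h2 : Ref g h) : Ref f h :=
  fun k x y hxy => h2 k x y (h1 k x y hxy)

lemma ref_refi (f : Col) (u : Row) : Ref (refi f u) f := by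
  intro k x y h
  simp only [refi] at h
  split_ifs at h <;> omega

def triv : Col := fun _ _ => 0

lemma good_triv : Good triv := by
  classical
  refine ⟨⟨1, Eventually.of_forall (fun k => ⟨fun x => Nat.one_pos, ?_⟩)⟩, ?_⟩
  · intro c hc
    obtain ⟨x, hx⟩ := hc
    rw [mem_cls] at hx
    have h0 : c = 0 := hx.symm
    subst h0
    have h1 : cls triv k 0 = (Finset.univ : Finset Bool) ×ˢ (Finset.univ : Finset (Fin k)) := by
      ext y
      simp [mem_cls, triv]
    rw [h1]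
    refine ⟨dif_prod _, ?_⟩
    unfold par
    simp
  · have h1 : ∀ k, asyf triv k = 0 := by
      intro k
      simp [asyf, triv]
    simp only [h1]
    simp

/-- algebra of a coloring -/
def Alg (f : Col) (u : Row) : Prop := ∀ k x y, f k x = f k y → (x ∈ u k ↔ y ∈ u k)

lemma Alg.of_ref {f' f : Col} (h : Ref f' f) {u : Row} (hu : Alg f u) : Alg f' u :=
  fun k x y hxy => hu k x y (h k x y hxy)

lemma alg_refi (f : Col) (u : Row) : Alg (refi f u) u := by
  intro k x y h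
  simp only [refi] at h
  by_cases h1 : x ∈ u k <;> by_cases h2 : y ∈ u k <;> simp [h1, h2] at h ⊢ <;> omega

def Diag (α : Ordinal.{0}) (F : Ordinal.{0} → ℕ → Col) (g : ℕ → Col) : Prop :=
  (∀ n, g n = triv ∨ ∃ β < α, g n = F β n) ∧ ∀ β < α, ∀ᶠ n in atTop, Ref (g n) (F β n)

lemma exists_diag (α : Ordinal.{0}) (hα : α < (Cardinal.aleph 1).ord) (F : Ordinal.{0} → ℕ → Col)
    (hF : ∀ γ < α, ∀ β < γ, ∀ᶠ n in atTop, Ref (F γ n) (F β n)) : ∃ g, Diag α F g := by
  classical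
  by_cases h0 : ∃ β, β < α
  swap
  · push Not at h0
    exact ⟨fun _ => triv, fun n => Or.inl rfl, fun β hβ => absurd hβ (not_lt.2 (h0 β))⟩
  obtain ⟨β0, hβ0⟩ := h0
  haveI := countable_Iio' hα
  haveI : Nonempty (Set.Iio α) := ⟨⟨β0, hβ0⟩⟩
  obtain ⟨b, hb⟩ := exists_surjective_nat (Set.Iio α)
  let ok : ℕ → ℕ → Prop := fun n s => ∃ γ < α, ∀ i ≤ s, Ref (F γ n) (F (b i).1 n)
  have ok0 : ∀ n, ok n 0 := by
    intro n
    refine ⟨(b 0).1, (b 0).2, ?_⟩
    intro i hi
    have : i = 0 := by omega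
    subst this
    exact Ref.refl _
  have okev : ∀ s, ∀ᶠ n in atTop, ok n s := by
    intro s
    have hmax : ∃ γ : Set.Iio α, ∀ i ≤ s, b i ≤ γ := by
      induction s with
      | zero => exact ⟨b 0, fun i hi => by rw [Nat.le_zero.1 hi]⟩
      | succ s ih =>
        obtain ⟨γ, hγ⟩ := ih
        refine ⟨max γ (b (s + 1)), fun i hi => ?_⟩
        rcases Nat.lt_or_ge s i with h1 | h1
        · have : i = s + 1 := by omega
          rw [this]
          exact le_max_right _ _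
        · exact (hγ i h1).trans (le_max_left _ _)
    obtain ⟨γ, hγ⟩ := hmax
    have h1 : ∀ i ∈ Finset.range (s + 1), ∀ᶠ n in atTop, Ref (F γ.1 n) (F (b i).1 n) := by
      intro i hi
      rcases (hγ i (by rw [Finset.mem_range] at hi; omega)).lt_or_eq with h2 | h2
      · exact hF γ.1 γ.2 (b i).1 h2
      · rw [h2]
        exact Eventually.of_forall (fun n => Ref.refl _)
    rw [← Filter.eventually_all_finset] at h1
    filter_upwards [h1] with n hn
    exact ⟨γ.1, γ.2, fun i hi => hn i (Finset.mem_range.2 (by omega))⟩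
  let sg : ℕ → ℕ := fun n => Nat.findGreatest (ok n) n
  have hsg : ∀ n, ok n (sg n) := fun n => Nat.findGreatest_spec (P := ok n) (Nat.zero_le n) (ok0 n)
  choose γ hγ1 hγ2 using hsg
  refine ⟨fun n => F (γ n) n, fun n => Or.inr ⟨γ n, hγ1 n, rfl⟩, ?_⟩
  intro β hβ
  obtain ⟨i, hi⟩ := hb ⟨β, hβ⟩
  filter_upwards [okev i, eventually_ge_atTop i] with n hn hn2
  have h1 : i ≤ sg n := Nat.le_findGreatest hn2 hn
  have h2 := hγ2 n i h1
  rw [hi] at h2
  exact h2

/-- one step of the construction -/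
noncomputable def stepf (A : Ordinal.{0} → Set Ordinal.{0}) (e : Ordinal.{0} → ℕ × Row)
    (α : Ordinal.{0}) (F : Ordinal.{0} → ℕ → Col) : ℕ → Col := by
  classical
  exact
    let g : ℕ → Col := if h : ∃ g, Diag α F g then h.choose else fun _ => triv
    if h : ∃ c : ℕ → Row, ∀ n, (∃ ξ ∈ A α, e ξ = (n, c n)) ∧ Bal (c n) ∧ Good (refi (g n) (c n))
    then fun n => refi (g n) (h.choose n) else g

noncomputable def tower (A : Ordinal.{0} → Set Ordinal.{0}) (e : Ordinal.{0} → ℕ × Row) :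
    Ordinal.{0} → ℕ → Col := by
  classical
  exact Ordinal.lt_wf.fix (fun α F => stepf A e α (fun β => if h : β < α then F β h else fun _ => triv))

lemma tower_eq (A : Ordinal.{0} → Set Ordinal.{0}) (e : Ordinal.{0} → ℕ × Row) (α : Ordinal.{0}) :
    tower A e α = stepf A e α (fun β => if _h : β < α then tower A e β else fun _ => triv) := by
  classical
  unfold tower
  rw [WellFounded.fix_eq]

lemma diag_congr {α : Ordinal.{0}} {F F' : Ordinal.{0} → ℕ → Col} (h : ∀ β < α, F β = F' β)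
    {g : ℕ → Col} (hg : Diag α F g) : Diag α F' g := by
  refine ⟨fun n => ?_, fun β hβ => ?_⟩
  · rcases hg.1 n with h1 | ⟨β, hβ, h1⟩
    · exact Or.inl h1
    · exact Or.inr ⟨β, hβ, by rw [h1, h β hβ]⟩
  · rw [← h β hβ]
    exact hg.2 β hβ

/-- the description of `tower` -/
lemma tower_desc (A : Ordinal.{0} → Set Ordinal.{0}) (e : Ordinal.{0} → ℕ × Row) (α : Ordinal.{0})
    (h : ∃ g, Diag α (tower A e) g) :
    ∃ g, Diag α (tower A e) g ∧
      ((∃ c : ℕ → Row, (∀ n, (∃ ξ ∈ A α, e ξ = (n, c n)) ∧ Bal (c n) ∧ Good (refi (g n) (c n))) ∧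
        tower A e α = fun n => refi (g n) (c n)) ∨
      ((¬ ∃ c : ℕ → Row, ∀ n, (∃ ξ ∈ A α, e ξ = (n, c n)) ∧ Bal (c n) ∧ Good (refi (g n) (c n))) ∧
        tower A e α = g)) := by
  classical
  set F : Ordinal.{0} → ℕ → Col := fun β => if _h : β < α then tower A e β else fun _ => triv with hFdef
  have hF : ∀ β < α, F β = tower A e β := by
    intro β hβ
    simp [hFdef, hβ]
  have h' : ∃ g, Diag α F g := by
    obtain ⟨g, hg⟩ := h
    exact ⟨g, diag_congr (fun β hβ => (hF β hβ).symm) hg⟩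
  refine ⟨h'.choose, diag_congr hF h'.choose_spec, ?_⟩
  by_cases hc : ∃ c : ℕ → Row, ∀ n, (∃ ξ ∈ A α, e ξ = (n, c n)) ∧ Bal (c n) ∧
      Good (refi (h'.choose n) (c n))
  · left
    refine ⟨hc.choose, hc.choose_spec, ?_⟩
    rw [tower_eq]
    simp only [stepf]
    rw [dif_pos h', dif_pos hc]
  · right
    refine ⟨hc, ?_⟩
    rw [tower_eq]
    simp only [stepf]
    rw [dif_pos h', dif_neg hc]

lemma tower_inv (A : Ordinal.{0} → Set Ordinal.{0}) (e : Ordinal.{0} → ℕ × Row) (α : Ordinal.{0})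
    (hα : α < (Cardinal.aleph 1).ord) :
    (∀ n, Good (tower A e α n)) ∧ ∀ β < α, ∀ᶠ n in atTop, Ref (tower A e α n) (tower A e β n) := by
  induction α using Ordinal.lt_wf.induction with
  | _ α ih =>
    have hd : ∃ g, Diag α (tower A e) g := by
      apply exists_diag α hα
      intro γ hγ β hβ
      exact (ih γ hγ (hγ.trans hα)).2 β hβ
    obtain ⟨g, hg, hcase⟩ := tower_desc A e α hd
    have hgood : ∀ n, Good (g n) := by
      intro n
      rcases hg.1 n with h1 | ⟨β, hβ, h1⟩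
      · rw [h1]
        exact good_triv
      · rw [h1]
        exact (ih β hβ (hβ.trans hα)).1 n
    rcases hcase with ⟨c, hc, he⟩ | ⟨-, he⟩
    · rw [he]
      refine ⟨fun n => (hc n).2.2, fun β hβ => ?_⟩
      filter_upwards [hg.2 β hβ] with n hn
      exact (ref_refi _ _).trans hn
    · rw [he]
      exact ⟨hgood, hg.2⟩

lemma exists_enum (A : Ordinal.{0} → Set Ordinal.{0}) (hA : Dia A) :
    ∃ e : Ordinal.{0} → ℕ × Row, ∀ p, ∃ ξ < (Cardinal.aleph 1).ord, e ξ = p := by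
  classical
  let Q := ℕ ⊕ (Σ k, Pt k)
  obtain ⟨enc, henc⟩ := exists_injective_nat Q
  let code : ℕ × Row → Set Ordinal.{0} := fun p =>
    {o | ∃ q : Q, (q = Sum.inl p.1 ∨ ∃ k x, x ∈ p.2 k ∧ q = Sum.inr ⟨k, x⟩) ∧ o = (enc q : Ordinal)}
  have hcode : Function.Injective code := by
    have key : ∀ p p' : ℕ × Row, code p = code p' → p.1 = p'.1 ∧ ∀ k x, x ∈ p.2 k → x ∈ p'.2 k := by
      intro p p' hpp
      refine ⟨?_, ?_⟩
      · have h1 : (enc (Sum.inl p.1) : Ordinal) ∈ code p := ⟨_, Or.inl rfl, rfl⟩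
        rw [hpp] at h1
        obtain ⟨q, hq, hq2⟩ := h1
        have h2 : enc (Sum.inl p.1) = enc q := by exact_mod_cast hq2
        have h3 := henc h2
        rcases hq with hq | ⟨k, x, -, hq⟩
        · rw [hq] at h3
          exact Sum.inl.inj h3
        · rw [hq] at h3
          exact absurd h3 (by simp)
      · intro k x hx
        have h1 : (enc (Sum.inr ⟨k, x⟩) : Ordinal) ∈ code p := ⟨_, Or.inr ⟨k, x, hx, rfl⟩, rfl⟩
        rw [hpp] at h1
        obtain ⟨q, hq, hq2⟩ := h1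
        have h2 : enc (Sum.inr ⟨k, x⟩) = enc q := by exact_mod_cast hq2
        have h3 := henc h2
        rcases hq with hq | ⟨k', x', hx', hq⟩
        · rw [hq] at h3
          exact absurd h3 (by simp)
        · rw [hq] at h3
          have h4 := Sum.inr.inj h3
          cases h4
          exact hx'
    intro p p' hpp
    obtain ⟨h1, h2⟩ := key p p' hpp
    obtain ⟨-, h3⟩ := key p' p hpp.symm
    refine Prod.ext h1 (row_ext (fun k x => ⟨h2 k x, h3 k x⟩))
  have hω : Ordinal.omega0 < (Cardinal.aleph 1).ord := by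
    rw [Cardinal.ord_aleph]
    exact Ordinal.omega0_lt_omega_one
  refine ⟨fun ξ => Function.invFun code (A ξ), fun p => ?_⟩
  have hp : code p ⊆ Set.Iio Ordinal.omega0 := by
    rintro o ⟨q, -, rfl⟩
    exact Ordinal.natCast_lt_omega0 _
  obtain ⟨α, hα, hX⟩ := hA.2 (code p) (hp.trans (Set.Iio_subset_Iio hω.le))
    (Set.Ico Ordinal.omega0 (Cardinal.aleph 1).ord) (fun x hx => hx.2) (by
      intro β hβ
      exact ⟨max β Ordinal.omega0, ⟨le_max_right _ _, max_lt hβ hω⟩, le_max_left _ _⟩) (by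
      intro γ hγ hγ0 h
      obtain ⟨δ, hδ, -, h2⟩ := h 0 hγ0
      exact ⟨hδ.1.trans h2.le, hγ⟩)
  refine ⟨α, hα.2, ?_⟩
  have h1 : A α = code p := by
    rw [← hX]
    apply Set.inter_eq_left.2
    exact hp.trans (Set.Iio_subset_Iio hα.1)
  show Function.invFun code (A α) = p
  rw [h1]
  exact Function.leftInverse_invFun hcode p

/-- the guessing theorem -/
theorem guess (A : Ordinal.{0} → Set Ordinal.{0}) (hA : Dia A) (e : Ordinal.{0} → ℕ × Row)
    (he : ∀ p, ∃ ξ < (Cardinal.aleph 1).ord, e ξ = p) (T : ℕ → Row → Prop)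
    (hT : ∀ n f, Good f → ∃ c : Row, Bal c ∧ Good (refi f c) ∧ T n c) :
    ∃ α < (Cardinal.aleph 1).ord, ∃ c : ℕ → Row, ∀ n, T n (c n) ∧ Bal (c n) ∧
      Alg (tower A e α n) (c n) := by
  classical
  set W := (Cardinal.aleph 1).ord with hW
  -- the answer functions
  have hex : ∀ (n : ℕ) (f : Col), ∃ (c : Row) (ξ : Ordinal.{0}), ξ < W ∧ (Good f → Bal c ∧
      Good (refi f c) ∧ T n c ∧ e ξ = (n, c)) := by
    intro n f
    by_cases hf : Good f
    · obtain ⟨c, h1, h2, h3⟩ := hT n f hf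
      obtain ⟨ξ, h4, h5⟩ := he (n, c)
      exact ⟨c, ξ, h4, fun _ => ⟨h1, h2, h3, h5⟩⟩
    · obtain ⟨ξ, h4, -⟩ := he (n, fun _ => ∅)
      exact ⟨fun _ => ∅, ξ, h4, fun h => absurd h hf⟩
  choose u ξ hξ hu using hex
  let X : Set Ordinal.{0} := {x | x < W ∧ T (e x).1 (e x).2}
  let C : Set Ordinal.{0} := {γ | γ < W ∧ (∀ n, ξ n triv < γ) ∧
    ∀ β < γ, ∀ n, ξ n (tower A e β n) < γ}
  have hCu : ∀ β < W, ∃ γ ∈ C, β ≤ γ := by
    intro β0 hβ0
    have hnext : ∀ γ : Ordinal.{0}, ∃ γ' : Ordinal.{0}, γ < W → γ' < W ∧ γ ≤ γ' ∧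
        (∀ n, ξ n triv < γ') ∧ ∀ β < γ, ∀ n, ξ n (tower A e β n) < γ' := by
      intro γ
      by_cases hγ : γ < W
      · haveI := countable_Iio' hγ
        obtain ⟨b1, hb1, hb1'⟩ := bddω (fun p : ℕ × Set.Iio γ => ξ p.1 (tower A e p.2.1 p.1))
          (fun p => hξ _ _)
        obtain ⟨b2, hb2, hb2'⟩ := bddω (fun n : ℕ => ξ n triv) (fun n => hξ _ _)
        have hlim : ∀ x < W, Order.succ x < W := by
          intro x hx
          have : Order.IsSuccLimit W := Cardinal.isSuccLimit_ord (Cardinal.aleph0_le_aleph 1)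
          exact this.succ_lt hx
        refine ⟨Order.succ (max γ (max b1 b2)), fun _ => ⟨hlim _ (max_lt hγ (max_lt hb1 hb2)),
          (le_max_left _ _).trans (Order.le_succ _), ?_, ?_⟩⟩
        · intro n
          rw [Order.lt_succ_iff]
          exact (hb2' n).trans ((le_max_right _ _).trans (le_max_right _ _))
        · intro β hβ n
          rw [Order.lt_succ_iff]
          exact (hb1' (n, ⟨β, hβ⟩)).trans ((le_max_left _ _).trans (le_max_right _ _))
      · exact ⟨0, fun h => absurd h hγ⟩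
    choose nx hnx using hnext
    let s : ℕ → Ordinal.{0} := fun i => nx^[i] β0
    have hs : ∀ i, s (i + 1) = nx (s i) := fun i => Function.iterate_succ_apply' nx i β0
    have hsW : ∀ i, s i < W := by
      intro i
      induction i with
      | zero => exact hβ0
      | succ i ih =>
        rw [hs]
        exact (hnx _ ih).1
    have hsup : (⨆ i, s i) < W := by
      have : ∀ i, s i < Ordinal.omega 1 := by
        intro i
        rw [← Cardinal.ord_aleph]
        exact hsW i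
      have h2 := Ordinal.iSup_lt_omega_one this
      rw [← Cardinal.ord_aleph] at h2
      exact h2
    have hle : ∀ i, s i ≤ ⨆ i, s i := fun i => Ordinal.le_iSup s i
    refine ⟨⨆ i, s i, ⟨hsup, ?_, ?_⟩, hle 0⟩
    · intro n
      have h1 := (hnx _ (hsW 0)).2.2.1 n
      rw [← hs] at h1
      exact h1.trans_le (hle 1)
    · intro β hβ n
      obtain ⟨i, hi⟩ := (Ordinal.lt_iSup_iff).1 hβ
      have h1 := (hnx _ (hsW i)).2.2.2 β hi n
      rw [← hs] at h1
      exact h1.trans_le (hle (i + 1))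
  have hCc : ∀ γ < W, 0 < γ → (∀ β < γ, ∃ δ ∈ C, β < δ ∧ δ < γ) → γ ∈ C := by
    intro γ hγ hγ0 h
    refine ⟨hγ, ?_, ?_⟩
    · intro n
      obtain ⟨δ, hδ, -, h2⟩ := h 0 hγ0
      exact (hδ.2.1 n).trans h2
    · intro β hβ n
      obtain ⟨δ, hδ, h1, h2⟩ := h β hβ
      exact (hδ.2.2 β h1 n).trans h2
  obtain ⟨α, hαC, hαX⟩ := hA.2 X (fun x hx => hx.1) C (fun x hx => hx.1) hCu hCc
  obtain ⟨hαW, hα1, hα2⟩ := hαC
  have hd : ∃ g, Diag α (tower A e) g := by
    apply exists_diag α hαW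
    intro γ hγ β hβ
    exact (tower_inv A e γ (hγ.trans hαW)).2 β hβ
  obtain ⟨g, hg, hcase⟩ := tower_desc A e α hd
  have hmem : ∀ x, x ∈ A α ↔ x ∈ X ∧ x < α := by
    intro x
    rw [← hαX]
    rfl
  have hyes : ∃ c : ℕ → Row, ∀ n, (∃ ξ ∈ A α, e ξ = (n, c n)) ∧ Bal (c n) ∧
      Good (refi (g n) (c n)) := by
    refine ⟨fun n => u n (g n), fun n => ?_⟩
    have hgood : Good (g n) ∧ ξ n (g n) < α := by
      rcases hg.1 n with h1 | ⟨β, hβ, h1⟩
      · rw [h1]
        exact ⟨good_triv, hα1 n⟩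
      · rw [h1]
        exact ⟨(tower_inv A e β (hβ.trans hαW)).1 n, hα2 β hβ n⟩
    obtain ⟨h1, h2, h3, h4⟩ := hu n (g n) hgood.1
    refine ⟨⟨ξ n (g n), ?_, h4⟩, h1, h2⟩
    rw [hmem]
    refine ⟨⟨hξ _ _, ?_⟩, hgood.2⟩
    rw [h4]
    exact h3
  rcases hcase with ⟨c, hc, hte⟩ | ⟨hno, -⟩
  · refine ⟨α, hαW, c, fun n => ?_⟩
    obtain ⟨⟨x, hx, hx2⟩, h2, h3⟩ := hc n
    refine ⟨?_, h2, ?_⟩
    · rw [hmem] at hx
      have := hx.1.2
      rw [hx2] at this
      exact this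
    · rw [hte]
      exact alg_refi _ _
  · exact absurd hyes hno

end Pool.Agent.H827R3
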