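import Pool.Agent.H827R3.NikF

set_option autoImplicit false

open Filter Topology

namespace Pool.Agent.H827R3

section alg

lemma alg_sup {f : Col} {u v : Row} (hu : Alg f u) (hv : Alg f v) : Alg f (u ⊔ v) := by
  intro k x y h
  simp only [Pi.sup_apply, Finset.sup_eq_union, Finset.mem_union]
  rw [hu k x y h, hv k x y h]

lemma alg_inf {f : Col} {u v : Row} (hu : Alg f u) (hv : Alg f v) : Alg f (u ⊓ v) := by
  intro k x y h
  simp only [Pi.inf_apply, Finset.inf_eq_inter, Finset.mem_inter]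
  rw [hu k x y h, hv k x y h]

lemma alg_compl {f : Col} {u : Row} (hu : Alg f u) : Alg f (uᶜ) := by
  intro k x y h
  simp only [Pi.compl_apply, Finset.mem_compl]
  rw [hu k x y h]

lemma alg_bot {f : Col} : Alg f (⊥ : Row) := by
  intro k x y h
  simp

end alg

/-- data: a tower of good colorings with the guessing property -/
structure Tow where
  tw : Ordinal.{0} → ℕ → Col
  good : ∀ α < (Cardinal.aleph 1).ord, ∀ n, Good (tw α n)
  ref : ∀ α < (Cardinal.aleph 1).ord, ∀ β < α, ∀ᶠ n in atTop, Ref (tw α n) (tw β n)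
  guess : ∀ T : ℕ → Row → Prop, (∀ n f, Good f → ∃ c : Row, Bal c ∧ Good (refi f c) ∧ T n c) →
    ∃ α < (Cardinal.aleph 1).ord, ∃ c : ℕ → Row, ∀ n, T n (c n) ∧ Bal (c n) ∧ Alg (tw α n) (c n)

theorem exists_tow (A : Ordinal.{0} → Set Ordinal.{0}) (hA : Dia A) : Nonempty Tow := by
  obtain ⟨e, he⟩ := exists_enum A hA
  exact ⟨⟨tower A e, fun α hα => (tower_inv A e α hα).1, fun α hα => (tower_inv A e α hα).2,
    guess A hA e he⟩⟩

variable (t : Tow)

lemma Tow.up {α β : Ordinal.{0}} (hβ : β < (Cardinal.aleph 1).ord) (h : α ≤ β) {a : ℕ → Row}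
    (ha : ∀ᶠ n in atTop, Alg (t.tw α n) (a n)) : ∀ᶠ n in atTop, Alg (t.tw β n) (a n) := by
  rcases h.lt_or_eq with h1 | h1
  · filter_upwards [ha, t.ref β hβ α h1] with n hn hn2
    exact hn.of_ref hn2
  · rw [← h1]
    exact ha

/-- the algebra -/
def BB : BooleanSubalgebra (ℕ → Row) where
  carrier := {a | (∀ n, a n ∈ PP) ∧ ∃ α < (Cardinal.aleph 1).ord, ∀ᶠ n in atTop, Alg (t.tw α n) (a n)}
  supClosed' := by
    rintro a ⟨ha, α, hα, haα⟩ b ⟨hb, β, hβ, hbβ⟩
    refine ⟨fun n => PP.supClosed (ha n) (hb n), max α β, max_lt hα hβ, ?_⟩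
    filter_upwards [t.up (max_lt hα hβ) (le_max_left α β) haα,
      t.up (max_lt hα hβ) (le_max_right α β) hbβ] with n h1 h2
    exact alg_sup h1 h2
  infClosed' := by
    rintro a ⟨ha, α, hα, haα⟩ b ⟨hb, β, hβ, hbβ⟩
    refine ⟨fun n => PP.infClosed (ha n) (hb n), max α β, max_lt hα hβ, ?_⟩
    filter_upwards [t.up (max_lt hα hβ) (le_max_left α β) haα,
      t.up (max_lt hα hβ) (le_max_right α β) hbβ] with n h1 h2
    exact alg_inf h1 h2
  compl_mem' := by
    rintro a ⟨ha, α, hα, haα⟩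
    refine ⟨fun n => BooleanSubalgebra.compl_mem (ha n), α, hα, ?_⟩
    filter_upwards [haα] with n h1
    exact alg_compl h1
  bot_mem' := by
    refine ⟨fun n => BooleanSubalgebra.bot_mem, 0, ?_, Eventually.of_forall (fun n => alg_bot)⟩
    rw [Cardinal.ord_aleph]
    exact Ordinal.omega_pos 1

lemma disj_BB (a b : BB t) : Disjoint a b ↔ ∀ n k, ∀ x ∈ a.1 n k, x ∉ b.1 n k := by
  rw [disj_sub, Pi.disjoint_iff]
  constructor
  · intro h n
    exact (disj_row _ _).1 (h n)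
  · intro h n
    exact (disj_row _ _).2 (h n)

lemma ext_BB {a b : BB t} (h : ∀ n k x, x ∈ a.1 n k ↔ x ∈ b.1 n k) : a = b := by
  apply Subtype.ext
  funext n
  exact row_ext (h n)

lemma zero_lt_W : (0 : Ordinal.{0}) < (Cardinal.aleph 1).ord := by
  rw [Cardinal.ord_aleph]
  exact Ordinal.omega_pos 1

/-- row inclusion -/
def inj (n : ℕ) (u : PP) : BB t :=
  ⟨fun m => if m = n then u.1 else ⊥, by
    refine ⟨fun m => ?_, 0, zero_lt_W, ?_⟩
    · by_cases h : m = n
      · simp only [h, if_true]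
        exact u.2
      · simp only [h, if_false]
        exact BooleanSubalgebra.bot_mem
    · filter_upwards [eventually_gt_atTop n] with m hm
      simp only [hm.ne', if_false]
      exact alg_bot⟩

lemma mem_inj {n : ℕ} {u : PP} {m k : ℕ} {x : Pt k} :
    x ∈ (inj t n u).1 m k ↔ m = n ∧ x ∈ u.1 k := by
  simp only [inj]
  by_cases h : m = n
  · simp [h]
  · simp [h]

lemma inj_disj {n : ℕ} {u v : PP} (h : Disjoint u v) : Disjoint (inj t n u) (inj t n v) := by
  rw [disj_BB]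
  rw [disj_sub, disj_row] at h
  intro m k x hx hx'
  rw [mem_inj] at hx hx'
  exact h k x hx.2 hx'.2

lemma inj_disj' {n n' : ℕ} {u v : PP} (h : n ≠ n') : Disjoint (inj t n u) (inj t n' v) := by
  rw [disj_BB]
  intro m k x hx hx'
  rw [mem_inj] at hx hx'
  exact h (hx.1.symm.trans hx'.1)

lemma inj_sup {n : ℕ} {u v : PP} : inj t n (u ⊔ v) = inj t n u ⊔ inj t n v := by
  apply ext_BB
  intro m k x
  have h1 : x ∈ ((inj t n u ⊔ inj t n v : BB t)).1 m k ↔
    x ∈ (inj t n u).1 m k ∨ x ∈ (inj t n v).1 m k := by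
    rw [BooleanSubalgebra.val_sup, Pi.sup_apply, Pi.sup_apply, Finset.sup_eq_union,
      Finset.mem_union]
  rw [h1, mem_inj, mem_inj, mem_inj, BooleanSubalgebra.val_sup, Pi.sup_apply,
    Finset.sup_eq_union, Finset.mem_union]
  tauto

lemma adm_inj {μ : BB t → ℝ} (h : Adm μ) (n : ℕ) : Adm (fun u => μ (inj t n u)) := by
  refine ⟨fun a b hab => ?_, ?_⟩
  · show μ (inj t n (a ⊔ b)) = _
    rw [inj_sup, h.1 _ _ (inj_disj t hab)]
  · obtain ⟨K, hK⟩ := h.2
    exact ⟨K, fun a => hK _⟩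

lemma mem_sup_BB {ι : Type} (s : Finset ι) (g : ι → BB t) (n k : ℕ) (x : Pt k) :
    x ∈ (s.sup g).1 n k ↔ ∃ i ∈ s, x ∈ (g i).1 n k := by
  classical
  induction s using Finset.induction_on with
  | empty =>
    constructor
    · intro h
      have : x ∈ (⊥ : ℕ → Row) n k := h
      simp at this
    · rintro ⟨i, hi, -⟩
      simp at hi
  | insert a s ha ih =>
    rw [Finset.sup_insert, BooleanSubalgebra.val_sup, Pi.sup_apply, Pi.sup_apply,
      Finset.sup_eq_union, Finset.mem_union, ih]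
    simp

/-- almost norming elements -/
lemma exists_norming {L : Type} [BooleanAlgebra L] {l : L → ℝ} (h : Adm l) :
    ∃ b, ∀ u, |l u| ≤ 2 * |l b| := by
  obtain ⟨K, hK⟩ := h.2
  by_cases h0 : ∀ u, l u = 0
  · exact ⟨⊥, fun u => by rw [h0 u]; simp⟩
  · push Not at h0
    obtain ⟨u0, hu0⟩ := h0
    have hbdd : BddAbove (Set.range (fun u => |l u|)) := ⟨K, by rintro _ ⟨u, rfl⟩; exact hK u⟩
    have hne : (Set.range (fun u => |l u|)).Nonempty := ⟨_, ⟨u0, rfl⟩⟩
    have hpos : 0 < sSup (Set.range (fun u => |l u|)) :=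
      lt_of_lt_of_le (abs_pos.2 hu0) (le_csSup hbdd ⟨u0, rfl⟩)
    obtain ⟨_, ⟨b, rfl⟩, hb⟩ := exists_lt_of_lt_csSup hne (half_lt_self hpos)
    refine ⟨b, fun u => ?_⟩
    have h1 : |l u| ≤ sSup (Set.range (fun u => |l u|)) := le_csSup hbdd ⟨u, rfl⟩
    simp only at hb
    linarith

/-- selecting a subset with large signed sum -/
lemma exists_subset_sum (s : Finset ℕ) (g : ℕ → ℝ) (K : ℝ) (h : 2 * K < ∑ n ∈ s, |g n|) :
    ∃ S ⊆ s, K < |∑ n ∈ S, g n| := by
  classical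
  rw [← Finset.sum_filter_add_sum_filter_not s (fun i => 0 ≤ g i)] at h
  have h1 : ∑ i ∈ s with 0 ≤ g i, |g i| = ∑ i ∈ s with 0 ≤ g i, g i := by
    apply Finset.sum_congr rfl
    intro i hi
    exact abs_of_nonneg (Finset.mem_filter.1 hi).2
  have h2 : ∑ i ∈ s with ¬ 0 ≤ g i, |g i| = - ∑ i ∈ s with ¬ 0 ≤ g i, g i := by
    rw [← Finset.sum_neg_distrib]
    apply Finset.sum_congr rfl
    intro i hi
    exact abs_of_nonpos (le_of_not_ge (Finset.mem_filter.1 hi).2)
  rw [h1, h2] at h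
  by_cases h3 : K < ∑ i ∈ s with 0 ≤ g i, g i
  · exact ⟨_, Finset.filter_subset _ _, h3.trans_le (le_abs_self _)⟩
  · refine ⟨_, Finset.filter_subset (fun i => ¬ 0 ≤ g i) s, ?_⟩
    have : K < - ∑ i ∈ s with ¬ 0 ≤ g i, g i := by linarith
    exact this.trans_le (neg_le_abs _)

/-- restriction of `c` to a set of rows -/
noncomputable def rest (c : ℕ → Row) (hc : ∀ n, Bal (c n)) (α : Ordinal.{0})
    (hα : α < (Cardinal.aleph 1).ord) (hcα : ∀ n, Alg (t.tw α n) (c n)) (S : Set ℕ) : BB t := by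
  classical
  exact ⟨fun n => if n ∈ S then c n else ⊥, by
    refine ⟨fun n => ?_, α, hα, Eventually.of_forall (fun n => ?_)⟩
    · by_cases h : n ∈ S
      · simp only [h, if_true]
        exact hc n
      · simp only [h, if_false]
        exact BooleanSubalgebra.bot_mem
    · by_cases h : n ∈ S
      · simp only [h, if_true]
        exact hcα n
      · simp only [h, if_false]
        exact alg_bot⟩

lemma mem_rest (c : ℕ → Row) (hc : ∀ n, Bal (c n)) (α : Ordinal.{0})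
    (hα : α < (Cardinal.aleph 1).ord) (hcα : ∀ n, Alg (t.tw α n) (c n)) (S : Set ℕ)
    (n k : ℕ) (x : Pt k) : x ∈ (rest t c hc α hα hcα S).1 n k ↔ n ∈ S ∧ x ∈ c n k := by
  simp only [rest]
  by_cases h : n ∈ S
  · simp [h]
  · simp [h]

/-- uniform boundedness on finitely supported elements -/
lemma fin_ub (μ : ℕ → BB t → ℝ) (h : ∀ n, Adm (μ n)) (hp : PB μ) :
    ∃ K : ℝ, ∀ j (b : BB t), (∃ N, ∀ n, N ≤ n → b.1 n = ⊥) → |μ j b| ≤ K := by
  classical
  by_contra hcon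
  push Not at hcon
  have hrow : ∀ n, ∃ C : ℝ, ∀ j u, |μ j (inj t n u)| ≤ C := fun n =>
    nik_PP (fun j u => μ j (inj t n u)) (fun j => adm_inj t (h j) n) (fun u => hp _)
  choose C hC using hrow
  choose bb hbb using fun j n => exists_norming (adm_inj t (h j) n)
  let a : ℕ → ℕ → ℝ := fun j n => |μ j (inj t n (bb j n))|
  have hunb : ∀ (N0 : ℕ) (K : ℝ), ∃ j N1, N0 < N1 ∧ K < ∑ n ∈ Finset.Ico N0 N1, a j n := by
    intro N0 K
    obtain ⟨j, b, ⟨N, hN⟩, hb⟩ := hcon (∑ n ∈ Finset.range N0, C n + 2 * K)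
    let N1 := max N (N0 + 1)
    refine ⟨j, N1, by omega, ?_⟩
    have hbN : ∀ n, N1 ≤ n → b.1 n = ⊥ := fun n hn => hN n ((le_max_left _ _).trans hn)
    have e1 : b = (Finset.range N1).sup (fun n => inj t n ⟨b.1 n, b.2.1 n⟩) := by
      apply ext_BB
      intro n k x
      rw [mem_sup_BB]
      constructor
      · intro hx
        have hn : n < N1 := by
          by_contra hlt
          rw [hbN n (by omega)] at hx
          simp at hx
        exact ⟨n, Finset.mem_range.2 hn, (mem_inj t).2 ⟨rfl, hx⟩⟩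
      · rintro ⟨i, hi, hx⟩
        rw [mem_inj] at hx
        obtain ⟨rfl, hx⟩ := hx
        exact hx
    have e2 : μ j b = ∑ n ∈ Finset.range N1, μ j (inj t n ⟨b.1 n, b.2.1 n⟩) := by
      conv_lhs => rw [e1]
      exact (h j).finset_sup _ _ (fun i _ i' _ hne => inj_disj' t hne)
    have e3 : |μ j b| ≤ ∑ n ∈ Finset.range N1, |μ j (inj t n ⟨b.1 n, b.2.1 n⟩)| := by
      rw [e2]
      exact Finset.abs_sum_le_sum_abs _ _
    have e4 : Finset.range N1 = Finset.range N0 ∪ Finset.Ico N0 N1 := by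
      ext n
      simp only [Finset.mem_range, Finset.mem_union, Finset.mem_Ico]
      have : N0 + 1 ≤ N1 := le_max_right _ _
      omega
    rw [e4, Finset.sum_union] at e3
    · have e5 : ∑ n ∈ Finset.range N0, |μ j (inj t n ⟨b.1 n, b.2.1 n⟩)| ≤
          ∑ n ∈ Finset.range N0, C n := Finset.sum_le_sum (fun n _ => hC n j _)
      have e6 : ∑ n ∈ Finset.Ico N0 N1, |μ j (inj t n ⟨b.1 n, b.2.1 n⟩)| ≤
          ∑ n ∈ Finset.Ico N0 N1, 2 * a j n := Finset.sum_le_sum (fun n _ => hbb j n _)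
      rw [← Finset.mul_sum] at e6
      linarith
    · rw [Finset.disjoint_left]
      intro n hn hn'
      simp only [Finset.mem_range, Finset.mem_Ico] at hn hn'
      omega
  choose jf Nf hNf hsum using hunb
  let Ns : ℕ → ℕ := fun i => Nat.rec 0 (fun i acc => Nf acc (4 * (i : ℝ))) i
  have hNs : ∀ i : ℕ, Ns (i + 1) = Nf (Ns i) (4 * (i : ℝ)) := fun i => rfl
  let J : ℕ → ℕ := fun i => jf (Ns i) (4 * (i : ℝ))
  have hNsm : StrictMono Ns := strictMono_nat_of_lt_succ (fun i => by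
    rw [hNs]
    exact hNf _ _)
  have hJ : ∀ i : ℕ, 4 * (i : ℝ) < ∑ n ∈ Finset.Ico (Ns i) (Ns (i + 1)), a (J i) n := by
    intro i
    rw [hNs]
    exact hsum _ _
  have huniq : ∀ n i i', Ns i ≤ n → n < Ns (i + 1) → Ns i' ≤ n → n < Ns (i' + 1) → i = i' := by
    intro n i i' h1 h2 h3 h4
    have h5 : i < i' + 1 := hNsm.lt_iff_lt.1 (lt_of_le_of_lt h1 h4)
    have h6 : i' < i + 1 := hNsm.lt_iff_lt.1 (lt_of_le_of_lt h3 h2)
    omega
  let T : ℕ → Row → Prop := fun n u => ∀ (hu : u ∈ PP) (i : ℕ), Ns i ≤ n → n < Ns (i + 1) →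
    a (J i) n ≤ 2 * |μ (J i) (inj t n ⟨u, hu⟩)|
  obtain ⟨α, hα, c, hc⟩ := t.guess T (by
    intro n f hf
    by_cases hi : ∃ i, Ns i ≤ n ∧ n < Ns (i + 1)
    · obtain ⟨i, hi1, hi2⟩ := hi
      obtain ⟨c, hc1, hc2⟩ := row_lemma f hf (fun u => μ (J i) (inj t n u)) (adm_inj t (h _) n)
        (bb (J i) n) (hbb (J i) n)
      refine ⟨c.1, c.2, hc1, ?_⟩
      intro hu i' h1 h2
      have := huniq n i i' hi1 hi2 h1 h2
      subst this
      exact hc2
    · obtain ⟨c, hc1, hc2⟩ := row_lemma f hf (fun u => μ 0 (inj t n u)) (adm_inj t (h _) n)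
        (bb 0 n) (hbb 0 n)
      refine ⟨c.1, c.2, hc1, ?_⟩
      intro hu i' h1 h2
      exact absurd ⟨i', h1, h2⟩ hi)
  have hcT : ∀ n i, Ns i ≤ n → n < Ns (i + 1) →
      a (J i) n ≤ 2 * |μ (J i) (inj t n ⟨c n, (hc n).2.1⟩)| := fun n i h1 h2 =>
    (hc n).1 (hc n).2.1 i h1 h2
  have hS : ∀ i : ℕ, ∃ S ⊆ Finset.Ico (Ns i) (Ns (i + 1)),
      (i : ℝ) < |∑ n ∈ S, μ (J i) (inj t n ⟨c n, (hc n).2.1⟩)| := by
    intro i
    apply exists_subset_sum
    have h1 : ∑ n ∈ Finset.Ico (Ns i) (Ns (i + 1)), a (J i) n ≤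
        ∑ n ∈ Finset.Ico (Ns i) (Ns (i + 1)), 2 * |μ (J i) (inj t n ⟨c n, (hc n).2.1⟩)| := by
      apply Finset.sum_le_sum
      intro n hn
      rw [Finset.mem_Ico] at hn
      exact hcT n i hn.1 hn.2
    rw [← Finset.mul_sum] at h1
    have h2 := hJ i
    linarith
  choose S hS1 hS2 using hS
  let R : Set ℕ → BB t := rest t c (fun n => (hc n).2.1) α hα (fun n => (hc n).2.2)
  have hRm : ∀ (V : Set ℕ) (n k : ℕ) (x : Pt k), x ∈ (R V).1 n k ↔ n ∈ V ∧ x ∈ c n k :=
    fun V n k x => mem_rest t c _ α hα _ V n k x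
  let Φ : Set ℕ → BB t := fun I => R {n | ∃ i ∈ I, n ∈ S i}
  have hSd : ∀ i i' n, n ∈ S i → n ∈ S i' → i = i' := by
    intro i i' n h1 h2
    have h3 := Finset.mem_Ico.1 (hS1 i h1)
    have h4 := Finset.mem_Ico.1 (hS1 i' h2)
    exact huniq n i i' h3.1 h3.2 h4.1 h4.2
  obtain ⟨K, hK⟩ := nb_hom μ h hp Φ (by
    intro I I' hII
    rw [disj_BB]
    intro n k x hx hx'
    simp only [Φ] at hx hx'
    rw [hRm] at hx hx'
    obtain ⟨⟨i, hi, hin⟩, -⟩ := hx
    obtain ⟨⟨i', hi', hin'⟩, -⟩ := hx'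
    have := hSd i i' n hin hin'
    subst this
    exact Set.disjoint_left.1 hII hi hi') (by
    intro I I' _
    apply ext_BB
    intro n k x
    rw [BooleanSubalgebra.val_sup, Pi.sup_apply, Pi.sup_apply, Finset.sup_eq_union,
      Finset.mem_union]
    simp only [Φ]
    rw [hRm, hRm, hRm]
    constructor
    · rintro ⟨⟨i, hi | hi, hin⟩, hx⟩
      · exact Or.inl ⟨⟨i, hi, hin⟩, hx⟩
      · exact Or.inr ⟨⟨i, hi, hin⟩, hx⟩
    · rintro (⟨⟨i, hi, hin⟩, hx⟩ | ⟨⟨i, hi, hin⟩, hx⟩)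
      · exact ⟨⟨i, Or.inl hi, hin⟩, hx⟩
      · exact ⟨⟨i, Or.inr hi, hin⟩, hx⟩)
  obtain ⟨r, hr⟩ := exists_nat_gt K
  have h1 := hK (J r) r
  have h2 : Φ {r} = (S r).sup (fun n => inj t n ⟨c n, (hc n).2.1⟩) := by
    apply ext_BB
    intro n k x
    rw [mem_sup_BB]
    simp only [Φ]
    rw [hRm]
    constructor
    · rintro ⟨⟨i, hi, hin⟩, hx⟩
      have : i = r := hi
      subst this
      exact ⟨n, hin, (mem_inj t).2 ⟨rfl, hx⟩⟩
    · rintro ⟨i, hi, hx⟩
      rw [mem_inj] at hx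
      obtain ⟨rfl, hx⟩ := hx
      exact ⟨⟨r, rfl, hi⟩, hx⟩
  rw [h2, (h (J r)).finset_sup _ _ (fun i _ i' _ hne => inj_disj' t hne)] at h1
  have h3 := hS2 r
  linarith

theorem nik_BB : Nik (BB t) := by
  classical
  intro μ h hp
  by_contra hu
  obtain ⟨K1, hK1⟩ := fin_ub t μ h hp
  obtain ⟨e, j, hed, hej⟩ := disjointify μ h hp hu
  choose αi hαi hαe using fun i => (e i).2.2
  obtain ⟨α, hα, hαle⟩ := bddω αi hαi
  have h1 : ∀ i, ∃ M : ℕ, i ≤ M ∧ ∀ n, M ≤ n → Alg (t.tw α n) ((e i).1 n) := by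
    intro i
    obtain ⟨M, hM⟩ := eventually_atTop.1 (t.up hα (hαle i) (hαe i))
    exact ⟨max M i, le_max_right _ _, fun n hn => hM n ((le_max_left _ _).trans hn)⟩
  choose M hMi hM using h1
  -- the homomorphism
  let G : Set ℕ → ℕ → Row := fun I n k =>
    Finset.univ.filter (fun x => ∃ i ∈ I, M i ≤ n ∧ x ∈ (e i).1 n k)
  have hGm : ∀ (I : Set ℕ) (n k : ℕ) (x : Pt k), x ∈ G I n k ↔
      ∃ i ∈ I, M i ≤ n ∧ x ∈ (e i).1 n k := by
    intro I n k x
    simp [G]
  have hGP : ∀ I n, G I n ∈ PP := by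
    intro I n
    have h2 : G I n = (((Finset.range (n + 1)).filter (fun i => i ∈ I ∧ M i ≤ n)).sup
        (fun i => (⟨(e i).1 n, (e i).2.1 n⟩ : PP)) : PP).1 := by
      apply row_ext
      intro k x
      have h3 : ∀ (s : Finset ℕ) (g : ℕ → PP), x ∈ (s.sup g).1 k ↔ ∃ i ∈ s, x ∈ (g i).1 k := by
        intro s g
        induction s using Finset.induction_on with
        | empty =>
          constructor
          · intro h
            have : x ∈ (⊥ : Row) k := h
            simp at this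
          · rintro ⟨i, hi, -⟩
            simp at hi
        | insert a s ha ih =>
          rw [Finset.sup_insert, BooleanSubalgebra.val_sup, Pi.sup_apply,
            Finset.sup_eq_union, Finset.mem_union, ih]
          simp
      rw [h3, hGm]
      constructor
      · rintro ⟨i, hi, hin, hx⟩
        refine ⟨i, ?_, hx⟩
        rw [Finset.mem_filter, Finset.mem_range]
        have := hMi i
        exact ⟨by omega, hi, hin⟩
      · rintro ⟨i, hi, hx⟩
        rw [Finset.mem_filter] at hi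
        exact ⟨i, hi.2.1, hi.2.2, hx⟩
    rw [h2]
    exact (((Finset.range (n + 1)).filter (fun i => i ∈ I ∧ M i ≤ n)).sup
        (fun i => (⟨(e i).1 n, (e i).2.1 n⟩ : PP)) : PP).2
  have hGA : ∀ I n, Alg (t.tw α n) (G I n) := by
    intro I n k x y hxy
    rw [hGm, hGm]
    constructor
    · rintro ⟨i, hi, hin, hx⟩
      exact ⟨i, hi, hin, (hM i n hin k x y hxy).1 hx⟩
    · rintro ⟨i, hi, hin, hx⟩
      exact ⟨i, hi, hin, (hM i n hin k x y hxy).2 hx⟩
  let Φ : Set ℕ → BB t := fun I => ⟨G I, hGP I, α, hα, Eventually.of_forall (hGA I)⟩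
  obtain ⟨K, hK⟩ := nb_hom μ h hp Φ (by
    intro I I' hII
    rw [disj_BB]
    intro n k x hx hx'
    have hx := (hGm I n k x).1 hx
    have hx' := (hGm I' n k x).1 hx'
    obtain ⟨i, hi, -, hxi⟩ := hx
    obtain ⟨i', hi', -, hxi'⟩ := hx'
    have hne : i ≠ i' := by
      rintro rfl
      exact Set.disjoint_left.1 hII hi hi'
    exact (disj_BB t _ _).1 (hed i i' hne) n k x hxi hxi') (by
    intro I I' _
    apply ext_BB
    intro n k x
    rw [BooleanSubalgebra.val_sup, Pi.sup_apply, Pi.sup_apply, Finset.sup_eq_union,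
      Finset.mem_union]
    show x ∈ G (I ∪ I') n k ↔ x ∈ G I n k ∨ x ∈ G I' n k
    rw [hGm, hGm, hGm]
    constructor
    · rintro ⟨i, hi | hi, hin⟩
      · exact Or.inl ⟨i, hi, hin⟩
      · exact Or.inr ⟨i, hi, hin⟩
    · rintro (⟨i, hi, hin⟩ | ⟨i, hi, hin⟩)
      · exact ⟨i, Or.inl hi, hin⟩
      · exact ⟨i, Or.inr hi, hin⟩)
  obtain ⟨r, hr⟩ := exists_nat_gt (K + K1)
  have h3 := hK (j r) r
  -- the head
  have h4 : μ (j r) (e r) = μ (j r) (e r ⊓ Φ {r}) + μ (j r) (e r \ Φ {r}) :=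
    (h (j r)).inf_add_sdiff _ _
  have h5 : e r ⊓ Φ {r} = Φ {r} := by
    apply ext_BB
    intro n k x
    rw [BooleanSubalgebra.val_inf, Pi.inf_apply, Pi.inf_apply, Finset.inf_eq_inter,
      Finset.mem_inter]
    show x ∈ (e r).1 n k ∧ x ∈ G {r} n k ↔ x ∈ G {r} n k
    rw [hGm]
    constructor
    · exact fun h => h.2
    · rintro ⟨i, hi, hin, hx⟩
      have : i = r := hi
      subst this
      exact ⟨hx, i, hi, hin, hx⟩
  have h6 : |μ (j r) (e r \ Φ {r})| ≤ K1 := by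
    apply hK1
    refine ⟨M r, fun n hn => ?_⟩
    apply row_ext
    intro k x
    rw [BooleanSubalgebra.val_sdiff, Pi.sdiff_apply, Pi.sdiff_apply, Finset.mem_sdiff]
    constructor
    · rintro ⟨hx, hx'⟩
      exfalso
      apply hx'
      show x ∈ G {r} n k
      rw [hGm]
      exact ⟨r, rfl, hn, hx⟩
    · intro hx
      simp at hx
  rw [h5] at h4
  have h7 := abs_add_le (μ (j r) (Φ {r})) (μ (j r) (e r \ Φ {r}))
  rw [← h4] at h7
  have h8 := hej r
  linarith

/-- good colorings have balanced algebras -/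
lemma dif_alg (f : Col) (hf : Good f) (u : Row) (hu : Alg f u) : ∀ᶠ k in atTop, dif (u k) = 0 := by
  classical
  obtain ⟨⟨m, hm⟩, -⟩ := hf
  filter_upwards [hm] with k hk
  have h1 : u k = (Finset.range m).biUnion (fun c => u k ∩ cls f k c) := by
    ext x
    simp only [Finset.mem_biUnion, Finset.mem_range, Finset.mem_inter, mem_cls]
    constructor
    · intro hx
      exact ⟨f k x, hk.1 x, hx, rfl⟩
    · rintro ⟨c, -, hx, -⟩
      exact hx
  have h2 : dif ((Finset.range m).biUnion (fun c => u k ∩ cls f k c)) =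
      ∑ c ∈ Finset.range m, dif (u k ∩ cls f k c) := by
    unfold dif
    rw [Finset.sum_biUnion]
    intro c _ c' _ hne
    rw [Function.onFun, Finset.disjoint_left]
    intro x hx hx'
    simp only [Finset.mem_inter, mem_cls] at hx hx'
    exact hne (hx.2.symm.trans hx'.2)
  rw [h1, h2]
  apply Finset.sum_eq_zero
  intro c _
  by_cases hne : (u k ∩ cls f k c).Nonempty
  · obtain ⟨x, hx⟩ := hne
    rw [Finset.mem_inter, mem_cls] at hx
    have h3 : u k ∩ cls f k c = cls f k c := by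
      ext y
      rw [Finset.mem_inter]
      constructor
      · exact fun h => h.2
      · intro hy
        refine ⟨?_, hy⟩
        rw [mem_cls] at hy
        exact (hu k x y (hx.2.trans hy.symm)).1 hx.1
    rw [h3]
    exact (hk.2 c ⟨x, mem_cls.2 hx.2⟩).1
  · rw [Finset.not_nonempty_iff_eq_empty] at hne
    rw [hne]
    exact dif_empty

theorem main (A : Ordinal.{0} → Set Ordinal.{0}) (hA : Dia A) :
  ∃ (B : Type) (_ : BooleanAlgebra B),
    (∀ μ : ℕ → B → ℝ,
      (∀ n, (∀ a b : B, Disjoint a b → μ n (a ⊔ b) = μ n a + μ n b) ∧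
        ∃ K : ℝ, ∀ a, |μ n a| ≤ K) →
      (∀ a, ∃ K : ℝ, ∀ n, |μ n a| ≤ K) →
      ∃ K : ℝ, ∀ n a, |μ n a| ≤ K) ∧
    ∃ D : ℕ → Set B, Monotone D ∧ (∀ a, ∃ n, a ∈ D n) ∧
      ∀ n, ∃ μ : ℕ → B → ℝ,
        (∀ k, (∀ a b : B, Disjoint a b → μ k (a ⊔ b) = μ k a + μ k b) ∧
          ∃ K : ℝ, ∀ a, |μ k a| ≤ K) ∧
        (∀ a ∈ D n, ∃ K : ℝ, ∀ k, |μ k a| ≤ K) ∧
        ¬ ∃ K : ℝ, ∀ k a, |μ k a| ≤ K := by
  classical
  obtain ⟨t⟩ := exists_tow A hA
  refine ⟨BB t, inferInstance, nik_BB t, ?_⟩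
  refine ⟨fun n => {a | ∀ m, n ≤ m → ∀ᶠ k in atTop, dif (a.1 m k) = 0}, ?_, ?_, ?_⟩
  · intro n n' hnn a ha m hm
    exact ha m (hnn.trans hm)
  · intro a
    obtain ⟨α, hα, hev⟩ := a.2.2
    obtain ⟨N, hN⟩ := eventually_atTop.1 hev
    exact ⟨N, fun m hm => dif_alg _ (t.good α hα m) _ (hN m hm)⟩
  · intro n
    refine ⟨fun k a => ((dif (a.1 n k) : ℤ) : ℝ), ?_, ?_, ?_⟩
    · intro k
      refine ⟨?_, ⟨2 * k, ?_⟩⟩
      · intro a b hab
        rw [disj_BB] at hab
        have h1 : dif ((a ⊔ b).1 n k) = dif (a.1 n k) + dif (b.1 n k) := by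
          rw [BooleanSubalgebra.val_sup, Pi.sup_apply, Pi.sup_apply, Finset.sup_eq_union]
          exact dif_union (Finset.disjoint_left.2 (hab n k))
        show ((dif ((a ⊔ b).1 n k) : ℤ) : ℝ) = _
        rw [h1]
        push_cast
        rfl
      · intro a
        have h1 := abs_dif_le (a.1 n k)
        have h2 := asy_le_card (a.1 n k)
        have h3 : (a.1 n k).card ≤ 2 * k := by
          have := Finset.card_le_univ (a.1 n k)
          simpa using this
        have h4 : |dif (a.1 n k)| ≤ ((2 * k : ℕ) : ℤ) := by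
          refine h1.trans ?_
          exact_mod_cast h2.trans h3
        have h5 : |((dif (a.1 n k) : ℤ) : ℝ)| ≤ ((2 * k : ℕ) : ℝ) := by
          rw [← Int.cast_abs]
          exact_mod_cast h4
        simpa using h5
    · intro a ha
      obtain ⟨N, hN⟩ := eventually_atTop.1 (ha n le_rfl)
      refine ⟨∑ k ∈ Finset.range N, |((dif (a.1 n k) : ℤ) : ℝ)|, fun k => ?_⟩
      by_cases hk : k < N
      · exact Finset.single_le_sum (f := fun k => |((dif (a.1 n k) : ℤ) : ℝ)|)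
          (fun i _ => abs_nonneg _) (Finset.mem_range.2 hk)
      · show |((dif (a.1 n k) : ℤ) : ℝ)| ≤ _
        rw [hN k (by omega)]
        simp only [Int.cast_zero, abs_zero]
        exact Finset.sum_nonneg (fun i _ => abs_nonneg _)
    · rintro ⟨K, hK⟩
      obtain ⟨k, hk⟩ := exists_nat_gt K
      let u : Row := fun k' => if k' = k then (({true} : Finset Bool) ×ˢ (Finset.univ)) else ∅
      have hu : Thin u := finite_thin u (k + 1) (by
        intro k' hk'
        simp only [u]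
        rw [if_neg (by omega)])
      have h1 := hK k (inj t n ⟨u, hu.bal⟩)
      have h2 : (inj t n ⟨u, hu.bal⟩).1 n k = (({true} : Finset Bool) ×ˢ (Finset.univ)) := by
        ext x
        rw [mem_inj]
        simp [u]
      simp only [h2] at h1
      rw [dif_single] at h1
      simp at h1
      linarith

end Pool.Agent.H827R3
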