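import Mathlib

set_option autoImplicit false
set_option maxHeartbeats 1000000

open Polynomial

namespace Pool.Agent.H827R3.OneReg

/-- two powers of far apart integers -/
theorem pow_gap {z z' D N : ℤ} (hz : 1 ≤ z) (hN : N ≤ z) (hD : 1 ≤ D) (h : z + D ≤ z') (f : ℕ) :
    D * ((z + 1) ^ (f + 1) + N) ≤ z' ^ (f + 2) - z ^ (f + 2) := by
  have h0 : 0 ≤ z := by omega
  have hz1 : z + 1 ≤ z' := by omega
  have h1 : z ^ f ≤ z' ^ f := pow_le_pow_left₀ h0 (by omega) f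
  have h2 : 1 ≤ z' ^ f := one_le_pow₀ (by omega)
  have h3 : D ≤ z' ^ (f + 1) - z ^ (f + 1) := by
    have e1 : z' ^ (f + 1) = z' * z' ^ f := by ring
    have e2 : z ^ (f + 1) = z * z ^ f := by ring
    rw [e1, e2]
    have : (z + D) * z' ^ f ≤ z' * z' ^ f := mul_le_mul_of_nonneg_right h (by omega)
    have h4 : z * z ^ f ≤ z * z' ^ f := mul_le_mul_of_nonneg_left h1 h0
    have h5 : D * 1 ≤ D * z' ^ f := mul_le_mul_of_nonneg_left h2 (by omega)
    nlinarith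
  have h4 : (z + 1) ^ (f + 1) ≤ z' ^ (f + 1) := pow_le_pow_left₀ (by omega) hz1 _
  have e1 : z' ^ (f + 2) = z' * z' ^ (f + 1) := by ring
  have e2 : z ^ (f + 2) = z * z ^ (f + 1) := by ring
  rw [e1, e2]
  have h5 : (z + D) * z' ^ (f + 1) ≤ z' * z' ^ (f + 1) :=
    mul_le_mul_of_nonneg_right h (pow_nonneg (by omega) _)
  have h6 : z * D ≤ z * (z' ^ (f + 1) - z ^ (f + 1)) := mul_le_mul_of_nonneg_left h3 h0
  have h7 : D * (z + 1) ^ (f + 1) ≤ D * z' ^ (f + 1) := mul_le_mul_of_nonneg_left h4 (by omega)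
  have h8 : D * N ≤ D * z := mul_le_mul_of_nonneg_left hN (by omega)
  nlinarith

/-- the decisive inequality: two roots whose registers have to cancel a multiple of `x` are close. -/
theorem pinned {N D x x' c z z' μ κ v v' : ℤ} {e : ℕ} (he : 2 ≤ e) (hN : 1 ≤ N) (hc : c ≠ 0)
    (hz : N ≤ z) (hD : 1 ≤ D) (hzz : z + D ≤ z') (hμ : |μ| + |κ| ≤ N * |c|) (hκ : κ ≠ 0)
    (hx : 4 * N ≤ |x|) (hxx : |x' - x| ≤ D) (hv : v = c * z ^ e + μ + κ * x)
    (hv' : v' = c * z' ^ e + μ + κ * x') (hvs : v ^ 2 < N * |x|) (hvs' : v' ^ 2 < N * |x'|) :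
    D ≤ 8 * N := by
  obtain ⟨f, rfl⟩ : ∃ f, e = f + 2 := ⟨e - 2, by omega⟩
  set A := (z + 1) ^ (f + 1) with hA
  have hz1 : 1 ≤ z := by omega
  have hA1 : 1 ≤ A := one_le_pow₀ (by omega)
  have hc1 : 1 ≤ |c| := Int.one_le_abs hc
  have hκ1 : 1 ≤ |κ| := Int.one_le_abs hκ
  have hμ0 : 0 ≤ |μ| := abs_nonneg _
  have hκN : |κ| ≤ N * |c| := by omega
  have hμN : |μ| ≤ N * |c| := by omega
  -- (b)
  have hgap := pow_gap hz1 hz hD hzz f
  have hb : |c| * (z' ^ (f + 2) - z ^ (f + 2)) ≤ |v| + |v'| + N * |c| * D := by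
    have h1 : c * (z' ^ (f + 2) - z ^ (f + 2)) = v' - v - κ * (x' - x) := by
      rw [hv, hv']; ring
    have h2 : 0 ≤ z' ^ (f + 2) - z ^ (f + 2) := by
      refine le_trans ?_ hgap
      have : 0 ≤ A + N := by omega
      positivity
    have h3 : |c| * (z' ^ (f + 2) - z ^ (f + 2)) = |v' - v - κ * (x' - x)| := by
      rw [← h1, abs_mul, abs_of_nonneg h2]
    rw [h3]
    have h4 : |v' - v - κ * (x' - x)| ≤ |v' - v| + |κ * (x' - x)| := abs_sub _ _
    have h5 : |v' - v| ≤ |v'| + |v| := abs_sub _ _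
    have h6 : |κ * (x' - x)| ≤ N * |c| * D := by
      rw [abs_mul]
      exact mul_le_mul hκN hxx (abs_nonneg _) (by positivity)
    omega
  have hb2 : D * (|c| * A) ≤ |v| + |v'| := by
    have h1 : |c| * (D * (A + N)) ≤ |c| * (z' ^ (f + 2) - z ^ (f + 2)) :=
      mul_le_mul_of_nonneg_left hgap (by omega)
    nlinarith
  -- (c)
  have hpow : z ^ (f + 2) + N ≤ (z + 1) ^ (f + 2) := by
    have h1 : z ^ (f + 1) ≤ (z + 1) ^ (f + 1) := pow_le_pow_left₀ (by omega) (by omega) _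
    have h2 : z ≤ z ^ (f + 1) := by
      calc z = z ^ 1 := (pow_one z).symm
        _ ≤ z ^ (f + 1) := pow_le_pow_right₀ hz1 (by omega)
    have h3 : (z + 1) * z ^ (f + 1) ≤ (z + 1) * (z + 1) ^ (f + 1) :=
      mul_le_mul_of_nonneg_left h1 (by omega)
    have e1 : (z + 1) ^ (f + 2) = (z + 1) * (z + 1) ^ (f + 1) := by ring
    have e2 : z ^ (f + 2) = z * z ^ (f + 1) := by ring
    rw [e1, e2]
    nlinarith
  have hAA : (z + 1) ^ (f + 2) ≤ A ^ 2 := by
    rw [hA, ← pow_mul]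
    exact pow_le_pow_right₀ (by omega) (by omega)
  have hcx : |x| ≤ |v| + |c| * (z + 1) ^ (f + 2) := by
    have h1 : κ * x = v - c * z ^ (f + 2) - μ := by rw [hv]; ring
    have h2 : |κ| * |x| ≤ |v| + |c| * z ^ (f + 2) + |μ| := by
      rw [← abs_mul, h1]
      have h3 : |v - c * z ^ (f + 2) - μ| ≤ |v - c * z ^ (f + 2)| + |μ| := abs_sub _ _
      have h4 : |v - c * z ^ (f + 2)| ≤ |v| + |c * z ^ (f + 2)| := abs_sub _ _
      have h5 : |c * z ^ (f + 2)| = |c| * z ^ (f + 2) := by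
        rw [abs_mul, abs_of_nonneg (show 0 ≤ z ^ (f + 2) from pow_nonneg (by omega) _)]
      omega
    have h3 : |x| ≤ |κ| * |x| := le_mul_of_one_le_left (abs_nonneg _) hκ1
    have h4 : |c| * (z ^ (f + 2) + N) ≤ |c| * (z + 1) ^ (f + 2) :=
      mul_le_mul_of_nonneg_left hpow (by omega)
    nlinarith
  have hcA : |c| * (z + 1) ^ (f + 2) ≤ (|c| * A) ^ 2 := by
    have h1 : |c| * (z + 1) ^ (f + 2) ≤ |c| * A ^ 2 := mul_le_mul_of_nonneg_left hAA (by omega)
    have h2 : |c| * A ^ 2 ≤ |c| ^ 2 * A ^ 2 := by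
      apply mul_le_mul_of_nonneg_right _ (by positivity)
      nlinarith
    calc _ ≤ _ := h1
      _ ≤ _ := h2
      _ = _ := by ring
  -- (d)
  have hx0 : 0 < |x| := by omega
  have hd : 2 * |v| ≤ |x| := by
    by_contra hcon
    push Not at hcon
    have h1 : |x| * |x| < (2 * |v|) * (2 * |v|) :=
      mul_lt_mul'' hcon hcon (abs_nonneg _) (abs_nonneg _)
    have h2 : (2 * |v|) * (2 * |v|) = 4 * v ^ 2 := by
      have h4 : |v| * |v| = v ^ 2 := by rw [← sq, sq_abs]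
      calc (2 * |v|) * (2 * |v|) = 4 * (|v| * |v|) := by ring
        _ = 4 * v ^ 2 := by rw [h4]
    have h3 : 4 * N * |x| ≤ |x| * |x| := mul_le_mul_of_nonneg_right hx (by omega)
    have h5 : 4 * N * |x| = 4 * (N * |x|) := by ring
    linarith
  -- (e)
  set B := |c| * A with hB
  have hB0 : 0 ≤ B := by positivity
  have he1 : |x| ≤ 2 * B ^ 2 := by omega
  have he2 : (D * B) ^ 2 ≤ 2 * (v ^ 2 + v' ^ 2) := by
    have h1 : (D * B) ^ 2 ≤ (|v| + |v'|) ^ 2 := by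
      apply pow_le_pow_left₀ _ hb2
      positivity
    have h2 : (|v| + |v'|) ^ 2 ≤ 2 * (v ^ 2 + v' ^ 2) := by
      have h3 := sq_abs v
      have h4 := sq_abs v'
      nlinarith [sq_nonneg (|v| - |v'|)]
    exact h1.trans h2
  have he3 : |x'| ≤ |x| + D := by
    have : |x'| ≤ |x| + |x' - x| := by
      have := abs_add_le x (x' - x)
      simpa using this
    omega
  have he4 : D ^ 2 * |x| ≤ 4 * N * (|x| + |x'|) := by
    have h1 : D ^ 2 * |x| ≤ D ^ 2 * (2 * B ^ 2) := mul_le_mul_of_nonneg_left he1 (by positivity)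
    have h2 : D ^ 2 * (2 * B ^ 2) = 2 * (D * B) ^ 2 := by ring
    nlinarith
  by_contra hcon
  push Not at hcon
  have h1 : D ^ 2 * |x| ≤ 8 * N * |x| + D * |x| := by
    have h2 : 4 * N * |x'| ≤ 4 * N * (|x| + D) := mul_le_mul_of_nonneg_left he3 (by omega)
    have h3 : D * (4 * N) ≤ D * |x| := mul_le_mul_of_nonneg_left hx (by omega)
    nlinarith
  have h2 : D ^ 2 * |x| > (8 * N + D) * |x| := by
    apply mul_lt_mul_of_pos_right _ hx0
    nlinarith
  nlinarith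

end Pool.Agent.H827R3.OneReg
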