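import Mathlib
import Pool.Agent.H827R3.OneRegA

set_option autoImplicit false
set_option maxHeartbeats 1000000

open Polynomial

namespace Pool.Agent.H827R3.OneReg

/-- remaining weight of the additions from step `k` on -/
def wt (n : ℕ) (β γ : ℕ → ℤ) (k : ℕ) : ℤ := ∑ j ∈ Finset.Ico k n, (|β j| + |γ j|)

theorem wt_end (n : ℕ) (β γ : ℕ → ℤ) : wt n β γ n = 0 := by simp [wt]

theorem wt_step {n : ℕ} {β γ : ℕ → ℤ} {k : ℕ} (hk : k < n) :
    wt n β γ k = |β k| + |γ k| + wt n β γ (k + 1) := by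
  unfold wt
  exact Finset.sum_eq_sum_Ico_succ_bot hk _

theorem wt_nonneg (n : ℕ) (β γ : ℕ → ℤ) (k : ℕ) : 0 ≤ wt n β γ k :=
  Finset.sum_nonneg fun _ _ => by positivity

theorem wt_le {n : ℕ} (β γ : ℕ → ℤ) {k : ℕ} (hk : k ≤ n) : wt n β γ k ≤ wt n β γ 0 := by
  induction k with
  | zero => exact le_rfl
  | succ k ih =>
    have h1 := ih (by omega)
    have h2 := wt_step (β := β) (γ := γ) (show k < n by omega)
    have : 0 ≤ |β k| + |γ k| := by positivity
    omega

section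
variable {n : ℕ} {c β γ : ℕ → ℤ} {m e : ℕ → ℕ}

/-- the values of the register at the integer `x` -/
def Run (n : ℕ) (c β γ : ℕ → ℤ) (m e : ℕ → ℕ) (x : ℤ) (v : ℕ → ℤ) : Prop :=
  ∀ k < n, v (k + 1) = c k * x ^ m k * v k ^ e k + β k * x + γ k

theorem abs_mono {c x v : ℤ} {m e : ℕ} (hc : c ≠ 0) (hx : 1 ≤ |x|) (he : 1 ≤ e) (hv : v ≠ 0) :
    |v| ≤ |c * x ^ m * v ^ e| := by
  rw [abs_mul, abs_mul, abs_pow, abs_pow]
  have h1 : 1 ≤ |c| := Int.one_le_abs hc
  have h2 : 1 ≤ |v| := Int.one_le_abs hv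
  have h3 : 1 ≤ |x| ^ m := one_le_pow₀ hx
  have h4 : |v| ≤ |v| ^ e := by
    calc |v| = |v| ^ 1 := (pow_one _).symm
      _ ≤ |v| ^ e := pow_le_pow_right₀ h2 he
  have h5 : 1 ≤ |c| * |x| ^ m := one_le_mul_of_one_le_of_one_le h1 h3
  calc |v| ≤ |v| ^ e := h4
    _ ≤ |c| * |x| ^ m * |v| ^ e := le_mul_of_one_le_left (by positivity) h5

/-- at a root the register is small. -/
theorem escape (hc : ∀ k < n, c k ≠ 0) (he : ∀ k < n, 1 ≤ e k) {x : ℤ} {v : ℕ → ℤ}
    (hx : 1 ≤ |x|) (hr : Run n c β γ m e x v) (h0 : v n = 0) {k : ℕ} (hk : k ≤ n) :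
    |v k| < (wt n β γ k + 1) * |x| := by
  by_contra hcon
  push Not at hcon
  have key : ∀ j, k ≤ j → j ≤ n → (wt n β γ j + 1) * |x| ≤ |v j| := by
    intro j hkj
    induction j, hkj using Nat.le_induction with
    | base => intro _; exact hcon
    | succ j hkj ih =>
      intro hj
      have h1 := ih (by omega)
      have hw := wt_nonneg n β γ j
      have hv : v j ≠ 0 := by
        intro h
        rw [h] at h1
        simp only [abs_zero] at h1
        have : 0 < (wt n β γ j + 1) * |x| := by positivity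
        omega
      have h2 := abs_mono (m := m j) (hc j (by omega)) hx (he j (by omega)) hv
      rw [hr j (by omega)]
      have h3 : |c j * x ^ m j * v j ^ e j| ≤
          |c j * x ^ m j * v j ^ e j + β j * x + γ j| + |β j * x| + |γ j| := by
        have h4 := abs_add_le (c j * x ^ m j * v j ^ e j + β j * x + γ j) (-(β j * x) + -γ j)
        have h5 := abs_add_le (-(β j * x)) (-γ j)
        rw [abs_neg, abs_neg] at h5
        have h6 : c j * x ^ m j * v j ^ e j + β j * x + γ j + (-(β j * x) + -γ j) =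
          c j * x ^ m j * v j ^ e j := by ring
        rw [h6] at h4
        omega
      have h4 : |β j * x| + |γ j| ≤ (|β j| + |γ j|) * |x| := by
        rw [abs_mul, add_mul]
        have : |γ j| ≤ |γ j| * |x| := le_mul_of_one_le_right (abs_nonneg _) hx
        omega
      have h5 := wt_step (β := β) (γ := γ) (show j < n by omega)
      have h6 : (wt n β γ j + 1) * |x| =
        (|β j| + |γ j|) * |x| + (wt n β γ (j + 1) + 1) * |x| := by rw [h5]; ring
      omega
  have h1 := key n hk le_rfl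
  rw [wt_end, h0] at h1
  simp only [abs_zero] at h1
  omega

theorem stepBound (hc : ∀ k < n, c k ≠ 0) (he : ∀ k < n, 1 ≤ e k) {x : ℤ} {v : ℕ → ℤ}
    (hx : 1 ≤ |x|) (hr : Run n c β γ m e x v) (h0 : v n = 0) {k : ℕ} (hk : k < n) :
    |c k * x ^ m k * v k ^ e k| < (wt n β γ k + 1) * |x| := by
  have h1 := escape hc he hx hr h0 (show k + 1 ≤ n by omega)
  rw [hr k hk] at h1
  have h3 : |c k * x ^ m k * v k ^ e k| ≤
      |c k * x ^ m k * v k ^ e k + β k * x + γ k| + |β k * x| + |γ k| := by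
    have h4 := abs_add_le (c k * x ^ m k * v k ^ e k + β k * x + γ k) (-(β k * x) + -γ k)
    have h5 := abs_add_le (-(β k * x)) (-γ k)
    rw [abs_neg, abs_neg] at h5
    have h6 : c k * x ^ m k * v k ^ e k + β k * x + γ k + (-(β k * x) + -γ k) =
      c k * x ^ m k * v k ^ e k := by ring
    rw [h6] at h4
    omega
  have h4 : |β k * x| + |γ k| ≤ (|β k| + |γ k|) * |x| := by
    rw [abs_mul, add_mul]
    have : |γ k| ≤ |γ k| * |x| := le_mul_of_one_le_right (abs_nonneg _) hx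
    omega
  have h5 := wt_step (β := β) (γ := γ) hk
  have h6 : (wt n β γ k + 1) * |x| =
    (|β k| + |γ k|) * |x| + (wt n β γ (k + 1) + 1) * |x| := by rw [h5]; ring
  omega

/-- before a multiplication by `x` the register is tiny -/
theorem smallX (hc : ∀ k < n, c k ≠ 0) (he : ∀ k < n, 1 ≤ e k) {x : ℤ} {v : ℕ → ℤ}
    (hx : 1 ≤ |x|) (hr : Run n c β γ m e x v) (h0 : v n = 0) {k : ℕ} (hk : k < n)
    (hm : 1 ≤ m k) : |v k| < wt n β γ 0 + 1 := by
  by_cases hv : v k = 0
  · rw [hv, abs_zero]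
    have := wt_nonneg n β γ 0
    omega
  have h1 := stepBound hc he hx hr h0 hk
  have h2 : |v k| * |x| ≤ |c k * x ^ m k * v k ^ e k| := by
    rw [abs_mul, abs_mul, abs_pow, abs_pow]
    have a1 : 1 ≤ |c k| := Int.one_le_abs (hc k hk)
    have a2 : 1 ≤ |v k| := Int.one_le_abs hv
    have a3 : |x| ≤ |x| ^ m k := by
      calc |x| = |x| ^ 1 := (pow_one _).symm
        _ ≤ |x| ^ m k := pow_le_pow_right₀ hx hm
    have a4 : |v k| ≤ |v k| ^ e k := by
      calc |v k| = |v k| ^ 1 := (pow_one _).symm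
        _ ≤ |v k| ^ e k := pow_le_pow_right₀ a2 (he k hk)
    calc |v k| * |x| = 1 * |x| * |v k| := by ring
      _ ≤ |c k| * |x| ^ m k * |v k| ^ e k := by
        apply mul_le_mul _ a4 (abs_nonneg _) (by positivity)
        exact mul_le_mul a1 a3 (abs_nonneg _) (by positivity)
  have h3 : |v k| * |x| < (wt n β γ k + 1) * |x| := lt_of_le_of_lt h2 h1
  have h4 : |v k| < wt n β γ k + 1 := lt_of_mul_lt_mul_right h3 (abs_nonneg _)
  have := wt_le β γ hk.le
  omega

/-- before any nonlinear operation the register is of size `√(N|x|)` -/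
theorem smallSq (hc : ∀ k < n, c k ≠ 0) (he : ∀ k < n, 1 ≤ e k) {x : ℤ} {v : ℕ → ℤ}
    (hx : wt n β γ 0 + 1 ≤ |x|) (hr : Run n c β γ m e x v) (h0 : v n = 0) {k : ℕ} (hk : k < n)
    (hm : 1 ≤ m k ∨ 2 ≤ e k) : v k ^ 2 < (wt n β γ 0 + 1) * |x| := by
  have hw := wt_nonneg n β γ 0
  have hx1 : 1 ≤ |x| := by omega
  by_cases hm1 : 1 ≤ m k
  · have h1 := smallX hc he hx1 hr h0 hk hm1
    have h2 : v k ^ 2 = |v k| * |v k| := by rw [← sq, sq_abs]
    rw [h2]
    calc |v k| * |v k| < (wt n β γ 0 + 1) * (wt n β γ 0 + 1) :=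
          mul_lt_mul'' h1 h1 (abs_nonneg _) (abs_nonneg _)
      _ ≤ _ := mul_le_mul_of_nonneg_left hx (by omega)
  · have he2 : 2 ≤ e k := by
      rcases hm with h | h
      · exact absurd h hm1
      · exact h
    by_cases hv : v k = 0
    · rw [hv]
      have : 0 < (wt n β γ 0 + 1) * |x| := by positivity
      simpa using this
    have h1 := stepBound hc he hx1 hr h0 hk
    have h2 : v k ^ 2 ≤ |c k * x ^ m k * v k ^ e k| := by
      rw [abs_mul, abs_mul, abs_pow, abs_pow]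
      have a1 : 1 ≤ |c k| := Int.one_le_abs (hc k hk)
      have a2 : 1 ≤ |v k| := Int.one_le_abs hv
      have a3 : 1 ≤ |x| ^ m k := one_le_pow₀ hx1
      have a4 : |v k| ^ 2 ≤ |v k| ^ e k := pow_le_pow_right₀ a2 he2
      have a5 : v k ^ 2 = |v k| ^ 2 := (sq_abs _).symm
      rw [a5]
      calc |v k| ^ 2 ≤ |v k| ^ e k := a4
        _ ≤ |c k| * |x| ^ m k * |v k| ^ e k :=
          le_mul_of_one_le_left (by positivity) (one_le_mul_of_one_le_of_one_le a1 a3)
    have h3 : wt n β γ k ≤ wt n β γ 0 := wt_le β γ hk.le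
    calc v k ^ 2 < (wt n β γ k + 1) * |x| := lt_of_le_of_lt h2 h1
      _ ≤ _ := mul_le_mul_of_nonneg_right (by omega) (by omega)

end

end Pool.Agent.H827R3.OneReg
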