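import Mathlib
import Pool.Agent.H827R3.OneRegB

set_option autoImplicit false
set_option maxHeartbeats 1000000

open Polynomial

namespace Pool.Agent.H827R3.OneReg

section
variable {n : ℕ} {c β γ : ℕ → ℤ} {m e : ℕ → ℕ}

/-- Two large roots whose registers have been pulled apart by `D` before a power are at distance
at most `8 N`. -/
theorem core (hc : ∀ k < n, c k ≠ 0) (he : ∀ k < n, 1 ≤ e k) {x x' D : ℤ} {v v' : ℕ → ℤ}
    (hx : 4 * (wt n β γ 0 + 1) ≤ |x|) (hx' : 4 * (wt n β γ 0 + 1) ≤ |x'|) (hD : 1 ≤ D)
    (hxx : |x' - x| ≤ D)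
    (hr : Run n c β γ m e x v) (hr' : Run n c β γ m e x' v') (h0 : v n = 0) (h0' : v' n = 0) :
    ∀ j k : ℕ, k + j = n → ∀ (c0 z z' μ κ : ℤ) (e0 : ℕ), c0 ≠ 0 → 2 ≤ e0 →
      wt n β γ 0 + 2 ≤ z → z + D ≤ z' → |μ| + |κ| + wt n β γ k * |c0| ≤ wt n β γ 0 * |c0| →
      v k = c0 * z ^ e0 + μ + κ * x → v' k = c0 * z' ^ e0 + μ + κ * x' →
      D ≤ 8 * (wt n β γ 0 + 1) := by
  have hw0 := wt_nonneg n β γ 0
  intro j
  induction j with
  | zero =>
    intro k hk c0 z z' μ κ e0 hc0 he0 hz hzz hμ hv hv'
    have hkn : k = n := by omega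
    subst hkn
    rw [wt_end] at hμ
    rw [h0] at hv
    rw [h0'] at hv'
    by_cases hκ : κ = 0
    · exfalso
      have hc1 : 1 ≤ |c0| := Int.one_le_abs hc0
      have h1 : |μ| = |c0| * z ^ e0 := by
        have h2 : μ = -(c0 * z ^ e0) := by rw [hκ] at hv; linarith
        rw [h2, abs_neg, abs_mul, abs_of_nonneg (show 0 ≤ z ^ e0 from pow_nonneg (by omega) _)]
      have h2 : z ≤ z ^ e0 := by
        calc z = z ^ 1 := (pow_one _).symm
          _ ≤ z ^ e0 := pow_le_pow_right₀ (by omega) (by omega)
      have h3 : |c0| * z ≤ |c0| * z ^ e0 := mul_le_mul_of_nonneg_left h2 (by omega)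
      have h4 : 0 ≤ |κ| := abs_nonneg _
      nlinarith
    · refine pinned (c := c0) (z := z) (z' := z') (μ := μ) (κ := κ) (e := e0) (v := 0) (v' := 0)
        he0 (by omega) hc0 (by omega) hD hzz ?_ hκ hx hxx hv hv' ?_ ?_
      · nlinarith [abs_nonneg c0]
      · have : 0 < (wt k β γ 0 + 1) * |x| := by
          have : 0 < |x| := by omega
          positivity
        simpa using this
      · have : 0 < (wt k β γ 0 + 1) * |x'| := by
          have : 0 < |x'| := by omega
          positivity
        simpa using this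
  | succ j ih =>
    intro k hk c0 z z' μ κ e0 hc0 he0 hz hzz hμ hv hv'
    have hkn : k < n := by omega
    have hws := wt_step (β := β) (γ := γ) hkn
    have hwk := wt_nonneg n β γ (k + 1)
    have hc1 : 1 ≤ |c0| := Int.one_le_abs hc0
    have hck : 1 ≤ |c k| := Int.one_le_abs (hc k hkn)
    by_cases hlin : m k = 0 ∧ e k = 1
    · -- linear step
      obtain ⟨hm0, he1⟩ := hlin
      refine ih (k + 1) (by omega) (c k * c0) z z' (c k * μ + γ k) (c k * κ + β k) e0
        (mul_ne_zero (hc k hkn) hc0) he0 hz hzz ?_ ?_ ?_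
      · have a1 : |c k * μ + γ k| ≤ |c k| * |μ| + |γ k| := by
          rw [← abs_mul]; exact abs_add_le _ _
        have a2 : |c k * κ + β k| ≤ |c k| * |κ| + |β k| := by
          rw [← abs_mul]; exact abs_add_le _ _
        have a3 : |c k| * (|μ| + |κ| + wt n β γ k * |c0|) ≤ |c k| * (wt n β γ 0 * |c0|) :=
          mul_le_mul_of_nonneg_left hμ (by omega)
        have a4 : 0 ≤ |β k| + |γ k| := by positivity
        have a5 : 1 ≤ |c k| * |c0| := one_le_mul_of_one_le_of_one_le hck hc1
        have a6 : |β k| + |γ k| ≤ (|β k| + |γ k|) * (|c k| * |c0|) :=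
          le_mul_of_one_le_right a4 a5
        rw [abs_mul, hws] at *
        nlinarith
      · rw [hr k hkn, hm0, he1, hv]; ring
      · rw [hr' k hkn, hm0, he1, hv']; ring
    · have hnl : 1 ≤ m k ∨ 2 ≤ e k := by
        have := he k hkn
        omega
      by_cases hκ : κ = 0
      · -- the register does not contain `x`
        obtain ⟨s, hs, hsc⟩ : ∃ s : ℤ, (s = 1 ∨ s = -1) ∧ c0 = s * |c0| := by
          rcases lt_or_gt_of_ne hc0 with h | h
          · exact ⟨-1, Or.inr rfl, by rw [abs_of_neg h]; ring⟩
          · exact ⟨1, Or.inl rfl, by rw [abs_of_pos h]; ring⟩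
        have hss : s * s = 1 := by rcases hs with h | h <;> simp [h]
        have hsa : |s| = 1 := by rcases hs with h | h <;> simp [h]
        set q := |c0| * z ^ e0 + s * μ with hq
        set q' := |c0| * z' ^ e0 + s * μ with hq'
        have hvq : v k = s * q := by
          rw [hv, hκ, hq]
          have : s * (|c0| * z ^ e0 + s * μ) = (s * |c0|) * z ^ e0 + (s * s) * μ := by ring
          rw [this, ← hsc, hss]; ring
        have hvq' : v' k = s * q' := by
          rw [hv', hκ, hq']
          have : s * (|c0| * z' ^ e0 + s * μ) = (s * |c0|) * z' ^ e0 + (s * s) * μ := by ring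
          rw [this, ← hsc, hss]; ring
        have hsμ : -(s * μ) ≤ wt n β γ 0 * |c0| := by
          have h1 : -(s * μ) ≤ |s * μ| := neg_le_abs _
          rw [abs_mul, hsa, one_mul] at h1
          have h2 : 0 ≤ wt n β γ k * |c0| := mul_nonneg (wt_nonneg _ _ _ _) (abs_nonneg _)
          have h3 := abs_nonneg κ
          omega
        have hz2 : z * z ≤ z ^ e0 := by
          calc z * z = z ^ 2 := by ring
            _ ≤ z ^ e0 := pow_le_pow_right₀ (by omega) he0
        have hqz : wt n β γ 0 + 2 ≤ q := by
          have h1 : |c0| * (z * z) ≤ |c0| * z ^ e0 := mul_le_mul_of_nonneg_left hz2 (by omega)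
          have h2 : wt n β γ 0 + 2 ≤ z * z - wt n β γ 0 := by nlinarith
          have h3 : 0 ≤ z * z - wt n β γ 0 := by omega
          have h4 : z * z - wt n β γ 0 ≤ |c0| * (z * z - wt n β γ 0) :=
            le_mul_of_one_le_left h3 hc1
          have h5 : |c0| * (z * z - wt n β γ 0) = |c0| * (z * z) - wt n β γ 0 * |c0| := by ring
          omega
        have hqq : q + D ≤ q' := by
          have h1 : D ≤ z' ^ e0 - z ^ e0 := by
            obtain ⟨f, rfl⟩ : ∃ f, e0 = f + 2 := ⟨e0 - 2, by omega⟩
            have h2 := pow_gap (z := z) (z' := z') (D := D) (N := 0) (by omega) (by omega) hD hzz f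
            have h3 : 1 ≤ (z + 1) ^ (f + 1) := one_le_pow₀ (by omega)
            nlinarith
          have h2 : D ≤ |c0| * (z' ^ e0 - z ^ e0) := by
            calc D ≤ z' ^ e0 - z ^ e0 := h1
              _ ≤ |c0| * (z' ^ e0 - z ^ e0) := le_mul_of_one_le_left (by omega) hc1
          rw [hq, hq']
          nlinarith
        by_cases hm : 1 ≤ m k
        · exfalso
          have h1 := smallX hc he (show 1 ≤ |x| by omega) hr h0 hkn hm
          rw [hvq, abs_mul, hsa, one_mul, abs_of_nonneg (by omega)] at h1
          omega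
        · have hm0 : m k = 0 := by omega
          have he2 : 2 ≤ e k := by
            rcases hnl with h | h
            · exact absurd h hm
            · exact h
          have hsk : |s ^ e k| = 1 := by rw [abs_pow, hsa, one_pow]
          refine ih (k + 1) (by omega) (c k * s ^ e k) q q' (γ k) (β k) (e k)
            (mul_ne_zero (hc k hkn) ?_) he2 hqz hqq ?_ ?_ ?_
          · intro h
            rw [h] at hsk
            simp at hsk
          · rw [abs_mul, hsk, mul_one]
            have h1 : |β k| + |γ k| + wt n β γ (k + 1) ≤ wt n β γ 0 := by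
              rw [← hws]; exact wt_le β γ hkn.le
            have h2 : (|β k| + |γ k| + wt n β γ (k + 1)) * |c k| ≤ wt n β γ 0 * |c k| :=
              mul_le_mul_of_nonneg_right h1 (abs_nonneg _)
            have h3 : |β k| + |γ k| ≤ (|β k| + |γ k|) * |c k| :=
              le_mul_of_one_le_right (by positivity) hck
            nlinarith
          · rw [hr k hkn, hm0, hvq]; ring
          · rw [hr' k hkn, hm0, hvq']; ring
      · -- pinned
        refine pinned (c := c0) (z := z) (z' := z') (μ := μ) (κ := κ) (e := e0) (v := v k)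
          (v' := v' k) he0 (by omega) hc0 (by omega) hD hzz ?_ hκ hx hxx hv hv' ?_ ?_
        · have h2 : 0 ≤ wt n β γ k * |c0| := mul_nonneg (wt_nonneg _ _ _ _) (abs_nonneg _)
          nlinarith
        · exact smallSq hc he (by omega) hr h0 hkn hnl
        · exact smallSq hc he (by omega) hr' h0' hkn hnl

end

end Pool.Agent.H827R3.OneReg
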