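import Mathlib
import Pool.Agent.H827R3.OneRegC

set_option autoImplicit false
set_option maxHeartbeats 1000000

open Polynomial

namespace Pool.Agent.H827R3.OneReg

theorem card_window (U : Finset ℤ) (M : ℤ) (hM : 0 ≤ M)
    (h : ∀ u ∈ U, ∀ u' ∈ U, u < u' → u' - u ≤ M) : (U.card : ℤ) ≤ M + 1 := by
  rcases U.eq_empty_or_nonempty with rfl | hne
  · simp; omega
  · have hsub : U ⊆ Finset.Icc (U.min' hne) (U.min' hne + M) := by
      intro u hu
      have h1 := U.min'_le u hu
      rw [Finset.mem_Icc]
      refine ⟨h1, ?_⟩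
      rcases h1.lt_or_eq with h2 | h2
      · have := h _ (U.min'_mem hne) u hu h2
        omega
      · omega
    have h1 := Finset.card_le_card hsub
    rw [Int.card_Icc] at h1
    omega

section
variable {n : ℕ} {c β γ : ℕ → ℤ} {m e : ℕ → ℕ}

/-- Lemma B: large roots when the register is `a X + b`, `a ≠ 0`, before a nonlinear step. -/
theorem lemmaB (hc : ∀ k < n, c k ≠ 0) (he : ∀ k < n, 1 ≤ e k) (T : Finset ℤ)
    (v : ℤ → ℕ → ℤ) (hT : ∀ x ∈ T, 4 * (wt n β γ 0 + 1) ≤ |x| ∧ Run n c β γ m e x (v x) ∧
      v x n = 0) {k : ℕ} (hk : k < n) (hnl : 1 ≤ m k ∨ 2 ≤ e k) {a b : ℤ} (ha : a ≠ 0)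
    (hv : ∀ x ∈ T, v x k = a * x + b) : (T.card : ℤ) ≤ 18 * (wt n β γ 0 + 1) + 3 := by
  classical
  have hw0 := wt_nonneg n β γ 0
  set N := wt n β γ 0 + 1 with hN
  set U := T.image (fun x => a * x + b) with hU
  have hinj : Function.Injective (fun x : ℤ => a * x + b) := by
    intro x x' h
    have : a * x = a * x' := by simpa using h
    exact mul_left_cancel₀ ha this
  have hcard : U.card = T.card := Finset.card_image_of_injective _ hinj
  have hws := wt_step (β := β) (γ := γ) hk
  have hwk := wt_nonneg n β γ (k + 1)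
  have hwle := wt_le β γ hk.le
  have hck : 1 ≤ |c k| := Int.one_le_abs (hc k hk)
  have ha1 : 1 ≤ |a| := Int.one_le_abs ha
  -- the weight condition of the first state
  have hweight : |γ k| + |β k| + wt n β γ (k + 1) * |c k| ≤ wt n β γ 0 * |c k| := by
    have h1 : |β k| + |γ k| + wt n β γ (k + 1) ≤ wt n β γ 0 := by rw [← hws]; exact hwle
    have h2 : (|β k| + |γ k| + wt n β γ (k + 1)) * |c k| ≤ wt n β γ 0 * |c k| :=
      mul_le_mul_of_nonneg_right h1 (abs_nonneg _)
    have h3 : |β k| + |γ k| ≤ (|β k| + |γ k|) * |c k| :=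
      le_mul_of_one_le_right (by positivity) hck
    nlinarith
  -- large values: no multiplication by `x`
  have hlarge : ∀ x ∈ T, N < |a * x + b| → m k = 0 ∧ 2 ≤ e k := by
    intro x hx hbig
    obtain ⟨h1, h2, h3⟩ := hT x hx
    have hm : m k = 0 := by
      by_contra hm
      have h4 := smallX hc he (show 1 ≤ |x| by omega) h2 h3 hk (by omega)
      rw [hv x hx] at h4
      omega
    exact ⟨hm, by omega⟩
  have hdiff : ∀ x x' : ℤ, a * x + b < a * x' + b →
      |x' - x| ≤ (a * x' + b) - (a * x + b) := by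
    intro x x' hlt
    have h1 : (a * x' + b) - (a * x + b) = |a| * |x' - x| := by
      rw [← abs_mul, abs_of_pos]
      · ring
      · have : a * (x' - x) = (a * x' + b) - (a * x + b) := by ring
        omega
    rw [h1]
    exact le_mul_of_one_le_left (abs_nonneg _) ha1
  have hpos : ((U.filter (fun u => N < u)).card : ℤ) ≤ 8 * N + 1 := by
    apply card_window _ _ (by omega)
    intro u hu u' hu' hlt
    rw [Finset.mem_filter, hU, Finset.mem_image] at hu hu'
    obtain ⟨⟨x, hx, rfl⟩, hx1⟩ := hu
    obtain ⟨⟨x', hx', rfl⟩, hx1'⟩ := hu'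
    obtain ⟨h1, h2, h3⟩ := hT x hx
    obtain ⟨h1', h2', h3'⟩ := hT x' hx'
    obtain ⟨hm0, he2⟩ := hlarge x hx (lt_of_lt_of_le hx1 (le_abs_self _))
    refine core hc he h1 h1' (D := (a * x' + b) - (a * x + b)) (by omega) (hdiff x x' hlt)
      h2 h2' h3 h3' (n - (k + 1)) (k + 1) (by omega) (c k) (a * x + b) (a * x' + b) (γ k) (β k)
      (e k) (hc k hk) he2 (by omega) (by omega) hweight ?_ ?_
    · rw [h2 k hk, hm0, hv x hx]; ring
    · rw [h2' k hk, hm0, hv x' hx']; ring
  have hneg : ((U.filter (fun u => u < -N)).card : ℤ) ≤ 8 * N + 1 := by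
    apply card_window _ _ (by omega)
    intro u hu u' hu' hlt
    rw [Finset.mem_filter, hU, Finset.mem_image] at hu hu'
    obtain ⟨⟨x, hx, rfl⟩, hx1⟩ := hu
    obtain ⟨⟨x', hx', rfl⟩, hx1'⟩ := hu'
    obtain ⟨h1, h2, h3⟩ := hT x hx
    obtain ⟨h1', h2', h3'⟩ := hT x' hx'
    obtain ⟨hm0, he2⟩ := hlarge x hx (by rw [lt_abs]; right; omega)
    have hxx := hdiff x x' hlt
    rw [abs_sub_comm] at hxx
    refine core hc he h1' h1 (D := (a * x' + b) - (a * x + b)) (by omega) hxx
      h2' h2 h3' h3 (n - (k + 1)) (k + 1) (by omega) (c k * (-1) ^ e k) (-(a * x' + b))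
      (-(a * x + b)) (γ k) (β k) (e k) ?_ he2 (by omega) (by omega) ?_ ?_ ?_
    · exact mul_ne_zero (hc k hk) (pow_ne_zero _ (by norm_num))
    · rw [abs_mul, abs_pow]
      simpa using hweight
    · rw [h2' k hk, hm0, hv x' hx', neg_pow (a * x' + b)]
      have : ((-1 : ℤ) ^ e k) * (-1) ^ e k = 1 := by rw [← mul_pow]; simp
      linear_combination (-(c k) * (a * x' + b) ^ e k) * this
    · rw [h2 k hk, hm0, hv x hx, neg_pow (a * x + b)]
      have : ((-1 : ℤ) ^ e k) * (-1) ^ e k = 1 := by rw [← mul_pow]; simp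
      linear_combination (-(c k) * (a * x + b) ^ e k) * this
  have hmid : ((U.filter (fun u => -N ≤ u ∧ u ≤ N)).card : ℤ) ≤ 2 * N + 1 := by
    have h1 : U.filter (fun u => -N ≤ u ∧ u ≤ N) ⊆ Finset.Icc (-N) N := by
      intro u hu
      rw [Finset.mem_filter] at hu
      rw [Finset.mem_Icc]
      exact hu.2
    have h2 := Finset.card_le_card h1
    rw [Int.card_Icc] at h2
    omega
  have hcover : U ⊆ (U.filter (fun u => -N ≤ u ∧ u ≤ N)) ∪
      ((U.filter (fun u => N < u)) ∪ (U.filter (fun u => u < -N))) := by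
    intro u hu
    simp only [Finset.mem_union, Finset.mem_filter]
    rcases lt_or_ge N u with h | h
    · exact Or.inr (Or.inl ⟨hu, h⟩)
    · rcases lt_or_ge u (-N) with h' | h'
      · exact Or.inr (Or.inr ⟨hu, h'⟩)
      · exact Or.inl ⟨hu, h', h⟩
  have h1 := (Finset.card_le_card hcover).trans (Finset.card_union_le _ _)
  have h2 := Finset.card_union_le (U.filter (fun u => N < u)) (U.filter (fun u => u < -N))
  omega

/-- large roots, linear phase -/
theorem linphase (hc : ∀ k < n, c k ≠ 0) (he : ∀ k < n, 1 ≤ e k) (y : ℕ → ℤ[X])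
    (hy : ∀ k < n, y (k + 1) = C (c k) * X ^ m k * y k ^ e k + C (β k) * X + C (γ k))
    (hn : y n ≠ 0) (T : Finset ℤ)
    (hT : ∀ x ∈ T, 4 * (wt n β γ 0 + 1) ≤ |x| ∧ (y n).eval x = 0) :
    ∀ j k : ℕ, k + j = n → ∀ a b : ℤ, y k = C a * X + C b →
      (T.card : ℤ) ≤ 18 * (wt n β γ 0 + 1) + 3 := by
  have hw0 := wt_nonneg n β γ 0
  have hrun : ∀ x : ℤ, Run n c β γ m e x (fun k => (y k).eval x) := by
    intro x k hk
    simp only [hy k hk, eval_add, eval_mul, eval_C, eval_pow, eval_X]
  intro j
  induction j with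
  | zero =>
    intro k hk a b hyk
    have hkn : k = n := by omega
    subst hkn
    have h1 : T ⊆ (y k).roots.toFinset := by
      intro x hx
      rw [Multiset.mem_toFinset, mem_roots hn]
      exact (hT x hx).2
    have h2 : (y k).roots.toFinset.card ≤ 1 := by
      refine (Multiset.toFinset_card_le _).trans ((card_roots' _).trans ?_)
      rw [hyk]
      compute_degree
    have h3 := Finset.card_le_card h1
    omega
  | succ j ih =>
    intro k hk a b hyk
    have hkn : k < n := by omega
    by_cases hlin : m k = 0 ∧ e k = 1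
    · refine ih (k + 1) (by omega) (c k * a + β k) (c k * b + γ k) ?_
      rw [hy k hkn, hyk, hlin.1, hlin.2]
      simp only [map_add, map_mul]
      ring
    · have hnl : 1 ≤ m k ∨ 2 ≤ e k := by
        have := he k hkn
        omega
      by_cases ha : a = 0
      · by_cases hb : b = 0
        · refine ih (k + 1) (by omega) (β k) (γ k) ?_
          rw [hy k hkn, hyk, ha, hb]
          have : e k ≠ 0 := by have := he k hkn; omega
          simp [this]
        · rcases Nat.lt_or_ge 1 (m k) with hm | hm
          · -- no large roots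
            have hT0 : T = ∅ := by
              rw [Finset.eq_empty_iff_forall_notMem]
              intro x hx
              obtain ⟨h1, h2⟩ := hT x hx
              have h3 := stepBound hc he (show 1 ≤ |x| by omega) (hrun x) h2 hkn
              have h4 : (y k).eval x = b := by rw [hyk, ha]; simp
              simp only [h4] at h3
              have h5 : |x| * |x| ≤ |c k * x ^ m k * b ^ e k| := by
                rw [abs_mul, abs_mul, abs_pow, abs_pow]
                have a1 : 1 ≤ |c k| := Int.one_le_abs (hc k hkn)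
                have a2 : 1 ≤ |b| ^ e k := one_le_pow₀ (Int.one_le_abs hb)
                have a3 : |x| * |x| ≤ |x| ^ m k := by
                  calc |x| * |x| = |x| ^ 2 := by ring
                    _ ≤ |x| ^ m k := pow_le_pow_right₀ (by omega) hm
                calc |x| * |x| = 1 * (|x| * |x|) * 1 := by ring
                  _ ≤ |c k| * |x| ^ m k * |b| ^ e k := by
                    apply mul_le_mul _ a2 (by norm_num) (by positivity)
                    exact mul_le_mul a1 a3 (by positivity) (by positivity)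
              have h6 : (wt n β γ k + 1) * |x| ≤ |x| * |x| := by
                apply mul_le_mul_of_nonneg_right _ (abs_nonneg _)
                have := wt_le β γ hkn.le
                omega
              omega
            rw [hT0]
            simp
            omega
          · have hm' : m k = 0 ∨ m k = 1 := by omega
            rcases hm' with hm0 | hm1
            · refine ih (k + 1) (by omega) (β k) (c k * b ^ e k + γ k) ?_
              rw [hy k hkn, hyk, ha, hm0]
              simp only [map_add, map_mul, map_pow, map_zero]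
              ring
            · refine ih (k + 1) (by omega) (c k * b ^ e k + β k) (γ k) ?_
              rw [hy k hkn, hyk, ha, hm1]
              simp only [map_add, map_mul, map_pow, map_zero]
              ring
      · refine lemmaB (b := b) hc he T (fun x k => (y k).eval x) ?_ hkn hnl ha ?_
        · intro x hx
          exact ⟨(hT x hx).1, hrun x, (hT x hx).2⟩
        · intro x _
          simp [hyk]

/-- the bound for nested expressions -/
theorem nested (hc : ∀ k < n, c k ≠ 0) (he : ∀ k < n, 1 ≤ e k) (y : ℕ → ℤ[X]) (a b : ℤ)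
    (h0 : y 0 = C a * X + C b)
    (hy : ∀ k < n, y (k + 1) = C (c k) * X ^ m k * y k ^ e k + C (β k) * X + C (γ k))
    (hn : y n ≠ 0) :
    ((y n).roots.toFinset.card : ℤ) ≤ 26 * (∑ k ∈ Finset.range n, (|β k| + |γ k|)) + 28 := by
  classical
  have hw : (∑ k ∈ Finset.range n, (|β k| + |γ k|)) = wt n β γ 0 := by
    rw [wt, Finset.range_eq_Ico]
  rw [hw]
  have hw0 := wt_nonneg n β γ 0
  set N := wt n β γ 0 + 1 with hN
  set T := (y n).roots.toFinset with hTdef
  have hroot : ∀ x ∈ T, (y n).eval x = 0 := by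
    intro x hx
    rw [hTdef, Multiset.mem_toFinset, mem_roots hn] at hx
    exact hx
  have h1 : ((T.filter (fun x => 4 * N ≤ |x|)).card : ℤ) ≤ 18 * N + 3 := by
    refine linphase hc he y hy hn _ ?_ n 0 (by omega) a b h0
    intro x hx
    rw [Finset.mem_filter] at hx
    exact ⟨hx.2, hroot x hx.1⟩
  have h2 : ((T.filter (fun x => ¬ 4 * N ≤ |x|)).card : ℤ) ≤ 8 * N - 1 := by
    have h3 : T.filter (fun x => ¬ 4 * N ≤ |x|) ⊆ Finset.Icc (-(4 * N - 1)) (4 * N - 1) := by
      intro x hx
      rw [Finset.mem_filter] at hx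
      rw [Finset.mem_Icc, ← abs_le]
      omega
    have h4 := Finset.card_le_card h3
    rw [Int.card_Icc] at h4
    omega
  have h3 := Finset.card_filter_add_card_filter_not (s := T) (fun x => 4 * N ≤ |x|)
  omega

end

end Pool.Agent.H827R3.OneReg
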